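import Pool.Agent.T6.H18.CR.Stm

set_option autoImplicit false
open MeasureTheory Set Filter Topology
open scoped ENNReal NNReal Real

namespace Pool.Agent.T6.H18.CR.A1

/-- The equivalence of triples with functions on `Fin 3`. -/
noncomputable def e3 : P3 ≃ₗ[ℝ] (Fin 3 → ℝ) where
  toFun v := ![v.1, v.2.1, v.2.2]
  invFun w := (w 0, w 1, w 2)
  map_add' v w := by
    funext i
    fin_cases i <;> simp
  map_smul' c v := by
    funext i
    fin_cases i <;> simp
  left_inv v := by simp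
  right_inv w := by
    funext i
    fin_cases i <;> simp

/-- The derivative of `Phi f`. -/
noncomputable def dPhi (F : P2 →L[ℝ] ℝ) (p : P3) : P3 →L[ℝ] P3 :=
  (F.comp (ContinuousLinearMap.snd ℝ ℝ P2)).prod
    ((ContinuousLinearMap.fst ℝ ℝ P2).prod
      (p.2.1 • (ContinuousLinearMap.fst ℝ ℝ P2) +
        p.1 • ((ContinuousLinearMap.fst ℝ ℝ ℝ).comp (ContinuousLinearMap.snd ℝ ℝ P2)) +
        (ContinuousLinearMap.snd ℝ ℝ ℝ).comp (ContinuousLinearMap.snd ℝ ℝ P2)))

theorem dPhi_apply (F : P2 →L[ℝ] ℝ) (p v : P3) :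
    dPhi F p v = (F v.2, v.1, p.2.1 * v.1 + p.1 * v.2.1 + v.2.2) := by
  simp [dPhi]

theorem dPhi_det (F : P2 →L[ℝ] ℝ) (p : P3) : (dPhi F p).det = - F (1, -p.1) := by
  rw [ContinuousLinearMap.det, ← LinearMap.det_toMatrix (Module.Basis.ofEquivFun e3),
    Matrix.det_fin_three]
  have h1 : F (1, -p.1) = F (1, 0) - p.1 * F (0, 1) := by
    have : ((1, -p.1) : P2) = (1, 0) - p.1 • ((0, 1) : P2) := by
      ext <;> simp
    rw [this, map_sub, map_smul, smul_eq_mul]
  rw [h1]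
  have h2 : ∀ i j, LinearMap.toMatrix (Module.Basis.ofEquivFun e3) (Module.Basis.ofEquivFun e3)
      (dPhi F p : P3 →ₗ[ℝ] P3) i j = e3 (dPhi F p (e3.symm (Pi.single j 1))) i := by
    intro i j
    rw [LinearMap.toMatrix_apply]
    simp
  simp only [h2, dPhi_apply]
  simp [e3]
  ring

theorem hasFDeriv {f : P2 → ℝ} {p : P3} (h : DifferentiableAt ℝ f p.2) :
    HasFDerivAt (Phi f) (dPhi (fderiv ℝ f p.2) p) p := by
  unfold dPhi Phi q
  have h1 : HasFDerivAt (fun p : P3 => p.1) (ContinuousLinearMap.fst ℝ ℝ P2) p := hasFDerivAt_fst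
  have h2 : HasFDerivAt (fun p : P3 => p.2) (ContinuousLinearMap.snd ℝ ℝ P2) p := hasFDerivAt_snd
  have h3 : HasFDerivAt (fun p : P3 => p.2.1)
      ((ContinuousLinearMap.fst ℝ ℝ ℝ).comp (ContinuousLinearMap.snd ℝ ℝ P2)) p :=
    hasFDerivAt_fst.comp p h2
  have h4 : HasFDerivAt (fun p : P3 => p.2.2)
      ((ContinuousLinearMap.snd ℝ ℝ ℝ).comp (ContinuousLinearMap.snd ℝ ℝ P2)) p :=
    hasFDerivAt_snd.comp p h2
  exact (h.hasFDerivAt.comp p h2).prodMk (h1.prodMk (((h3.mul h1)).add h4))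

theorem lip {f : P2 → ℝ} {L : ℝ≥0} {β : ℝ} {A : Set P3} (hf : LipschitzWith L f)
    (hA : A ⊆ Icc (0:ℝ) 1 ×ˢ (Icc (-1:ℝ) 1 ×ˢ Icc (-β) β)) :
    LipschitzOnWith (L + 3) (Phi f) A := by
  apply LipschitzOnWith.of_dist_le_mul
  intro x hx y hy
  have hx' := hA hx
  have hy' := hA hy
  rw [mem_prod, mem_prod] at hx' hy'
  obtain ⟨⟨hx1, hx2⟩, ⟨hx3, hx4⟩, _⟩ := hx'
  obtain ⟨⟨hy1, hy2⟩, ⟨hy3, hy4⟩, _⟩ := hy'
  have hd1 : |x.1 - y.1| ≤ dist x y := by
    rw [Prod.dist_eq, ← Real.dist_eq]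
    exact le_max_left _ _
  have hd0 : dist x.2 y.2 ≤ dist x y := by
    rw [Prod.dist_eq]
    exact le_max_right _ _
  have hd2 : |x.2.1 - y.2.1| ≤ dist x y := by
    refine le_trans ?_ hd0
    rw [Prod.dist_eq, ← Real.dist_eq]
    exact le_max_left _ _
  have hd3 : |x.2.2 - y.2.2| ≤ dist x y := by
    refine le_trans ?_ hd0
    rw [Prod.dist_eq, ← Real.dist_eq]
    exact le_max_right _ _
  have hL : (0 : ℝ) ≤ L := L.2
  have hdd : 0 ≤ dist x y := dist_nonneg
  unfold Phi q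
  rw [Prod.dist_eq, Prod.dist_eq]
  push_cast
  refine max_le ?_ (max_le ?_ ?_)
  · refine (hf.dist_le_mul _ _).trans ?_
    refine mul_le_mul ?_ hd0 dist_nonneg (by positivity)
    linarith
  · rw [Real.dist_eq]
    nlinarith
  · rw [Real.dist_eq]
    have h5 : x.2.1 * x.1 + x.2.2 - (y.2.1 * y.1 + y.2.2) =
        x.2.1 * (x.1 - y.1) + y.1 * (x.2.1 - y.2.1) + (x.2.2 - y.2.2) := by ring
    have h6 : |x.2.1 * (x.1 - y.1)| ≤ dist x y := by
      rw [abs_mul]
      calc |x.2.1| * |x.1 - y.1| ≤ 1 * dist x y :=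
            mul_le_mul (abs_le.mpr ⟨hx3, hx4⟩) hd1 (abs_nonneg _) zero_le_one
        _ = dist x y := one_mul _
    have h7 : |y.1 * (x.2.1 - y.2.1)| ≤ dist x y := by
      rw [abs_mul]
      calc |y.1| * |x.2.1 - y.2.1| ≤ 1 * dist x y :=
            mul_le_mul (abs_le.mpr ⟨by linarith, hy2⟩) hd2 (abs_nonneg _) zero_le_one
        _ = dist x y := one_mul _
    rw [h5]
    refine (abs_add_three _ _ _).trans ?_
    nlinarith

theorem haar2 : (volume : Measure P2).IsAddHaarMeasure :=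
  inferInstanceAs (((volume : Measure ℝ).prod (volume : Measure ℝ)).IsAddHaarMeasure)

theorem haar3 : (volume : Measure P3).IsAddHaarMeasure := by
  have _ := haar2
  exact inferInstanceAs (((volume : Measure ℝ).prod (volume : Measure P2)).IsAddHaarMeasure)

theorem null_image {f : P3 → P3} {A : Set P3} {K : ℝ≥0} (hf : LipschitzOnWith K f A)
    (hA : volume A = 0) : volume (f '' A) = 0 := by
  have _ := haar3
  have h1 : (μH[Module.finrank ℝ P3] : Measure P3) A = 0 :=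
    Measure.absolutelyContinuous_isAddHaarMeasure _ volume hA
  have h2 := hf.hausdorffMeasure_image_le (d := (Module.finrank ℝ P3 : ℝ)) (by positivity)
  rw [h1, mul_zero] at h2
  exact Measure.absolutelyContinuous_isAddHaarMeasure volume
    (μH[Module.finrank ℝ P3] : Measure P3) (le_antisymm h2 bot_le)

theorem a1 : StmArea := by
  intro f L β A hf hA hsub
  have _ := haar2
  have _ := haar3
  set D : Set P2 := {z | DifferentiableAt ℝ f z} with hD
  have hDm : MeasurableSet D := measurableSet_of_differentiableAt ℝ f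
  have hD0 : volume Dᶜ = 0 := hf.ae_differentiableAt (μ := (volume : Measure P2))
  set T : Set P3 := {p | p.2 ∈ D} with hT
  have hTm : MeasurableSet T := measurable_snd hDm
  have hT0 : volume Tᶜ = 0 := by
    have : Tᶜ = (univ : Set ℝ) ×ˢ Dᶜ := by
      ext p
      simp [hT]
    rw [this, Measure.volume_eq_prod, Measure.prod_prod, hD0, mul_zero]
  have h1 : volume (Phi f '' (A ∩ Tᶜ)) = 0 := by
    apply null_image ((lip hf hsub).mono inter_subset_left)
    exact measure_mono_null inter_subset_right hT0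
  have h2 : volume (Phi f '' (A ∩ T)) ≤
      ∫⁻ p in A ∩ T, ENNReal.ofReal |(dPhi (fderiv ℝ f p.2) p).det| := by
    apply addHaar_image_le_lintegral_abs_det_fderiv volume (hA.inter hTm)
    intro p hp
    exact (hasFDeriv hp.2).hasFDerivWithinAt
  calc volume (Phi f '' A) ≤ volume (Phi f '' (A ∩ T) ∪ Phi f '' (A ∩ Tᶜ)) := by
        rw [← image_union, inter_union_compl]
    _ ≤ volume (Phi f '' (A ∩ T)) + volume (Phi f '' (A ∩ Tᶜ)) := measure_union_le _ _
    _ = volume (Phi f '' (A ∩ T)) := by rw [h1, add_zero]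
    _ ≤ ∫⁻ p in A ∩ T, ENNReal.ofReal |(dPhi (fderiv ℝ f p.2) p).det| := h2
    _ = ∫⁻ p in A ∩ T, ENNReal.ofReal |fderiv ℝ f p.2 (1, -p.1)| := by
        simp only [dPhi_det, abs_neg]
    _ ≤ ∫⁻ p in A, ENNReal.ofReal |fderiv ℝ f p.2 (1, -p.1)| :=
        lintegral_mono_set inter_subset_left

end Pool.Agent.T6.H18.CR.A1
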