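import Pool.Agent.T6.H18.CR.Stm

set_option autoImplicit false
open MeasureTheory Set Filter Topology
open scoped ENNReal NNReal Real

namespace Pool.Agent.T6.H18.CR.A3

open Pool.Agent.T6.H18.CR

theorem q_cont : Continuous (fun p : ℝ × P2 => q p.1 p.2) := by
  unfold q
  fun_prop

theorem a3 : StmDini := by
  intro f K U hf hK hU hpos
  by_contra hcon
  push Not at hcon
  have h1 : ∀ n : ℕ, ∃ z ∈ K, ∃ t : ℝ, |f z - t| ≤ 1 / ((n : ℝ) + 1) ∧
      volume {x : ℝ | x ∈ Icc (0:ℝ) 1 ∧ (t, x, q x z) ∈ U} < 1 / 2 := by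
    intro n
    obtain ⟨z, hz, t, ht1, ht2⟩ := hcon (1 / ((n : ℝ) + 1)) (by positivity)
    exact ⟨z, hz, t, ht1, ht2⟩
  choose z hzK t ht hv using h1
  obtain ⟨z0, hz0, φ, hφ, hlim⟩ := hK.tendsto_subseq hzK
  have hfl : Tendsto (fun n => f (z (φ n))) atTop (𝓝 (f z0)) := (hf.tendsto z0).comp hlim
  have htl : Tendsto (fun n => t (φ n)) atTop (𝓝 (f z0)) := by
    have h2 : Tendsto (fun n => f (z (φ n)) - t (φ n)) atTop (𝓝 0) := by
      have h3 : Tendsto (fun n : ℕ => 1 / (((φ n : ℕ) : ℝ) + 1)) atTop (𝓝 0) :=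
        tendsto_one_div_add_atTop_nhds_zero_nat.comp hφ.tendsto_atTop
      exact squeeze_zero_norm (fun n => by rw [Real.norm_eq_abs]; exact ht (φ n)) h3
    have h4 := hfl.sub h2
    simpa using h4
  obtain ⟨A, hA⟩ : ∃ A : ℕ → Set ℝ, A = fun n =>
    {x : ℝ | x ∈ Icc (0:ℝ) 1 ∧ (t (φ n), x, q x (z (φ n))) ∈ U} := ⟨_, rfl⟩
  have hsub : {x : ℝ | x ∈ Icc (0:ℝ) 1 ∧ (f z0, x, q x z0) ∈ U} ⊆ ⋃ m, ⋂ n ∈ {n : ℕ | m ≤ n}, A n := by
    rintro x ⟨hx, hxU⟩
    have hl : Tendsto (fun n => (t (φ n), x, q x (z (φ n)))) atTop (𝓝 (f z0, x, q x z0)) := by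
      refine htl.prodMk_nhds (tendsto_const_nhds.prodMk_nhds ?_)
      have hqc : Continuous (fun z : P2 => q x z) := by unfold q; fun_prop
      exact (hqc.tendsto z0).comp hlim
    have h5 := hl.eventually (hU.mem_nhds hxU)
    obtain ⟨m, hm⟩ := eventually_atTop.1 h5
    refine mem_iUnion.2 ⟨m, mem_iInter₂.2 (fun n hn => ?_)⟩
    rw [hA]
    exact ⟨hx, hm n hn⟩
  have hle : volume (⋃ m, ⋂ n ∈ {n : ℕ | m ≤ n}, A n) ≤ 1 / 2 := by
    have hmono : Monotone (fun m => ⋂ n ∈ {n : ℕ | m ≤ n}, A n) := by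
      intro m m' hmm x hx
      refine mem_iInter₂.2 (fun n hn => ?_)
      exact mem_iInter₂.1 hx n (le_trans hmm hn)
    rw [hmono.measure_iUnion]
    refine iSup_le (fun m => ?_)
    refine (measure_mono (biInter_subset_of_mem (x := m) (by simp))).trans ?_
    rw [hA]
    exact (hv (φ m)).le
  exact absurd ((measure_mono hsub).trans hle) (not_le.2 (hpos z0 hz0))

end Pool.Agent.T6.H18.CR.A3
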