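import Pool.Agent.T6.H18.CR.Stm

set_option autoImplicit false
open MeasureTheory Set Filter Topology
open scoped ENNReal NNReal Real

namespace Pool.Agent.T6.H18.CR.C

/-- the intercept part of `Yn` -/
noncomputable def Pn (f : P2 → ℝ) (u : ℕ → ℝ) (G : ℝ) (s : ℕ → ℕ) (n : ℕ) (z : P2) : ℝ :=
  fderiv ℝ f z (1, 0) + ∑ i ∈ Finset.range n, xi (u i) G (1 / ((s i : ℝ) + 1)) z * u i

/-- the slope part of `Yn` -/
noncomputable def Rn (f : P2 → ℝ) (u : ℕ → ℝ) (G : ℝ) (s : ℕ → ℕ) (n : ℕ) (z : P2) : ℝ :=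
  fderiv ℝ f z (0, 1) + ∑ i ∈ Finset.range n, xi (u i) G (1 / ((s i : ℝ) + 1)) z

lemma lpos (k : ℕ) : 0 < 1 / ((k : ℝ) + 1) := by positivity

lemma lle (k : ℕ) : 1 / ((k : ℝ) + 1) ≤ 1 := by
  rw [div_le_one (by positivity)]
  have : (0:ℝ) ≤ k := Nat.cast_nonneg k
  linarith

lemma Yn_eq (f : P2 → ℝ) (u : ℕ → ℝ) (G : ℝ) (s : ℕ → ℕ) (n : ℕ) (x : ℝ) (z : P2) :
    Yn f u G s n x z = Pn f u G s n z - x * Rn f u G s n z := by
  unfold Yn Pn Rn
  have h1 : fderiv ℝ f z (1, -x) = fderiv ℝ f z (1, 0) - x * fderiv ℝ f z (0, 1) := by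
    have : ((1 : ℝ), -x) = (1, 0) + (-x) • ((0 : ℝ), (1 : ℝ)) := by
      ext <;> simp
    rw [this, map_add, map_smul]
    simp; ring
  rw [h1]
  have h2 : ∑ i ∈ Finset.range n, xi (u i) G (1 / ((s i : ℝ) + 1)) z * (u i - x) =
      ∑ i ∈ Finset.range n, xi (u i) G (1 / ((s i : ℝ) + 1)) z * u i -
        x * ∑ i ∈ Finset.range n, xi (u i) G (1 / ((s i : ℝ) + 1)) z := by
    rw [Finset.mul_sum, ← Finset.sum_sub_distrib]
    apply Finset.sum_congr rfl
    intro i _; ring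
  rw [h2]; ring

lemma Pn_meas (hxi : StmXi) (f : P2 → ℝ) (u : ℕ → ℝ) (G : ℝ) (s : ℕ → ℕ) (n : ℕ)
    (h0 : 0 < G) (h1 : G ≤ 1 / 16) : Measurable (Pn f u G s n) := by
  unfold Pn
  apply Measurable.add (measurable_fderiv_apply_const ℝ f _)
  apply Finset.measurable_fun_sum
  intro i _
  exact ((hxi (u i) G _ h0 h1 (lpos _)).1).mul_const _

lemma Rn_meas (hxi : StmXi) (f : P2 → ℝ) (u : ℕ → ℝ) (G : ℝ) (s : ℕ → ℕ) (n : ℕ)
    (h0 : 0 < G) (h1 : G ≤ 1 / 16) : Measurable (Rn f u G s n) := by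
  unfold Rn
  apply Measurable.add (measurable_fderiv_apply_const ℝ f _)
  apply Finset.measurable_fun_sum
  intro i _
  exact ((hxi (u i) G _ h0 h1 (lpos _)).1)

lemma Yn_meas (hxi : StmXi) (f : P2 → ℝ) (u : ℕ → ℝ) (G : ℝ) (s : ℕ → ℕ) (n : ℕ) (x : ℝ)
    (h0 : 0 < G) (h1 : G ≤ 1 / 16) : Measurable (Yn f u G s n x) := by
  have : Yn f u G s n x = fun z => Pn f u G s n z - x * Rn f u G s n z := by
    funext z; exact Yn_eq f u G s n x z
  rw [this]
  exact (Pn_meas hxi f u G s n h0 h1).sub ((Rn_meas hxi f u G s n h0 h1).const_mul x)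

lemma Yn_meas3 (hxi : StmXi) (f : P2 → ℝ) (u : ℕ → ℝ) (G : ℝ) (s : ℕ → ℕ) (n : ℕ)
    (h0 : 0 < G) (h1 : G ≤ 1 / 16) : Measurable (fun p : P3 => Yn f u G s n p.1 p.2) := by
  have : (fun p : P3 => Yn f u G s n p.1 p.2) =
      fun p => Pn f u G s n p.2 - p.1 * Rn f u G s n p.2 := by
    funext p; exact Yn_eq f u G s n p.1 p.2
  rw [this]
  exact ((Pn_meas hxi f u G s n h0 h1).comp measurable_snd).sub
    (measurable_fst.mul ((Rn_meas hxi f u G s n h0 h1).comp measurable_snd))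

lemma Y_step (hxi : StmXi) (f : P2 → ℝ) (u : ℕ → ℝ) (G : ℝ) (s : ℕ → ℕ) (n : ℕ) (x : ℝ) (z : P2)
    (h0 : 0 < G) (h1 : G ≤ 1 / 16) (hu : ∀ n, u n ∈ Icc (0:ℝ) 1) (hx : x ∈ Icc (0:ℝ) 1) :
    |Yn f u G s (n + 1) x z - Yn f u G s n x z| ≤ 2 * G := by
  unfold Yn
  rw [Finset.sum_range_succ]
  have h2 : fderiv ℝ f z (1, -x) +
      (∑ i ∈ Finset.range n, xi (u i) G (1 / ((s i : ℝ) + 1)) z * (u i - x) +
        xi (u n) G (1 / ((s n : ℝ) + 1)) z * (u n - x)) -
      (fderiv ℝ f z (1, -x) +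
        ∑ i ∈ Finset.range n, xi (u i) G (1 / ((s i : ℝ) + 1)) z * (u i - x)) =
      xi (u n) G (1 / ((s n : ℝ) + 1)) z * (u n - x) := by ring
  rw [h2, abs_mul]
  have h3 := ((hxi (u n) G _ h0 h1 (lpos (s n))).2 z).2
  have h4 : |u n - x| ≤ 1 := by
    rw [abs_le]
    have := hu n
    constructor <;> linarith [this.1, this.2, hx.1, hx.2]
  calc _ ≤ (2 * G) * 1 := mul_le_mul h3 h4 (abs_nonneg _) (by linarith)
    _ = 2 * G := mul_one _

lemma Y_bound (hxi : StmXi) (f : P2 → ℝ) (L : ℝ≥0) (hf : LipschitzWith L f) (u : ℕ → ℝ) (G : ℝ)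
    (s : ℕ → ℕ) (n : ℕ) (x : ℝ) (z : P2)
    (h0 : 0 < G) (h1 : G ≤ 1 / 16) (hu : ∀ n, u n ∈ Icc (0:ℝ) 1) (hx : x ∈ Icc (0:ℝ) 1) :
    |Yn f u G s n x z| ≤ L + 2 * G * n := by
  induction n with
  | zero =>
    have h2 : Yn f u G s 0 x z = fderiv ℝ f z (1, -x) := by simp [Yn]
    rw [h2]
    have h3 := (fderiv ℝ f z).le_opNorm (1, -x)
    have h4 : ‖fderiv ℝ f z‖ ≤ L := norm_fderiv_le_of_lipschitz ℝ hf
    have h5 : ‖((1 : ℝ), -x)‖ ≤ 1 := by
      rw [Prod.norm_def]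
      apply max_le
      · simp
      · simp only [norm_neg, Real.norm_eq_abs]
        rw [abs_le]; constructor <;> linarith [hx.1, hx.2]
    rw [Real.norm_eq_abs] at h3
    simp only [Nat.cast_zero, mul_zero, add_zero]
    calc |fderiv ℝ f z (1, -x)| ≤ ‖fderiv ℝ f z‖ * ‖((1 : ℝ), -x)‖ := h3
      _ ≤ L * 1 := mul_le_mul h4 h5 (norm_nonneg _) L.2
      _ = L := mul_one _
  | succ n ih =>
    have h2 := Y_step hxi f u G s n x z h0 h1 hu hx
    have h3 := abs_sub_abs_le_abs_sub (Yn f u G s (n + 1) x z) (Yn f u G s n x z)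
    push_cast
    linarith

lemma fn_lip (hlip : StmLip) (f : P2 → ℝ) (L : ℝ≥0) (hf : LipschitzWith L f) (u : ℕ → ℝ) (G : ℝ)
    (s : ℕ → ℕ) (h0 : 0 < G) (h1 : G ≤ 1 / 16) (hu : ∀ n, u n ∈ Icc (0:ℝ) 1) (n : ℕ) :
    LipschitzWith (L + n) (fn f u G s n) := by
  induction n with
  | zero =>
    have : fn f u G s 0 = f := by funext z; simp [fn]
    rw [this]; simpa using hf
  | succ n ih =>
    have : fn f u G s (n + 1) =
        fun z => fn f u G s n z + hh (u n) G (1 / ((s n : ℝ) + 1)) z := by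
      funext z; simp only [fn, Finset.sum_range_succ]; ring
    rw [this]
    have h2 := ih.add (hlip (u n) G _ (hu n).1 (hu n).2 h0 h1 (lpos (s n)) (lle (s n)))
    have h3 : L + (n : ℝ≥0) + 1 = L + ((n + 1 : ℕ) : ℝ≥0) := by push_cast; ring
    rw [← h3]
    exact h2

lemma ae_bound (hgrad : StmGrad) (f : P2 → ℝ) (L : ℝ≥0) (hf : LipschitzWith L f) (u : ℕ → ℝ)
    (G e : ℝ) (s : ℕ → ℕ) (h0 : 0 < G) (h1 : G ≤ 1 / 16) (hu : ∀ n, u n ∈ Icc (0:ℝ) 1) (m : ℕ)
    (he : 0 < e) (hs : ∀ n < m, 1 / ((s n : ℝ) + 1) < e) :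
    ∀ᵐ z : P2, z.1 ∈ Icc (-1:ℝ) 1 → ∀ j ≤ m, ∀ x : ℝ,
      |fderiv ℝ (fn f u G s j) z (1, -x) - Yn f u G s j x z| ≤ m * e / 16 := by
  have ha := hf.ae_differentiableAt (μ := (volume : Measure P2))
  have hb : ∀ᵐ z : P2, ∀ i : ℕ, z.1 ∈ Icc (-1:ℝ) 1 →
      DifferentiableAt ℝ (hh (u i) G (1 / ((s i : ℝ) + 1))) z ∧
      ∀ v : P2, |fderiv ℝ (hh (u i) G (1 / ((s i : ℝ) + 1))) z v -
        xi (u i) G (1 / ((s i : ℝ) + 1)) z * (u i * v.1 + v.2)| ≤
          G * (1 / ((s i : ℝ) + 1)) * |v.1| := by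
    rw [ae_all_iff]
    intro i
    exact hgrad (u i) G _ (hu i).1 (hu i).2 h0 h1 (lpos (s i)) (lle (s i))
  filter_upwards [ha, hb] with z hz1 hz2 hz j hj x
  have hd : HasFDerivAt (fn f u G s j)
      (fderiv ℝ f z + ∑ i ∈ Finset.range j, fderiv ℝ (hh (u i) G (1 / ((s i : ℝ) + 1))) z) z := by
    have h2 : HasFDerivAt (fun z => ∑ i ∈ Finset.range j, hh (u i) G (1 / ((s i : ℝ) + 1)) z)
        (∑ i ∈ Finset.range j, fderiv ℝ (hh (u i) G (1 / ((s i : ℝ) + 1))) z) z := by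
      apply HasFDerivAt.fun_sum
      intro i _
      exact ((hz2 i hz).1).hasFDerivAt
    exact hz1.hasFDerivAt.add h2
  rw [hd.fderiv]
  unfold Yn
  rw [add_apply, sum_apply]
  have h3 : fderiv ℝ f z (1, -x) +
      ∑ i ∈ Finset.range j, fderiv ℝ (hh (u i) G (1 / ((s i : ℝ) + 1))) z (1, -x) -
      (fderiv ℝ f z (1, -x) +
        ∑ i ∈ Finset.range j, xi (u i) G (1 / ((s i : ℝ) + 1)) z * (u i - x)) =
      ∑ i ∈ Finset.range j, (fderiv ℝ (hh (u i) G (1 / ((s i : ℝ) + 1))) z (1, -x) -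
        xi (u i) G (1 / ((s i : ℝ) + 1)) z * (u i - x)) := by
    rw [Finset.sum_sub_distrib]; ring
  rw [h3]
  calc |∑ i ∈ Finset.range j, (fderiv ℝ (hh (u i) G (1 / ((s i : ℝ) + 1))) z (1, -x) -
        xi (u i) G (1 / ((s i : ℝ) + 1)) z * (u i - x))|
      ≤ ∑ i ∈ Finset.range j, |fderiv ℝ (hh (u i) G (1 / ((s i : ℝ) + 1))) z (1, -x) -
        xi (u i) G (1 / ((s i : ℝ) + 1)) z * (u i - x)| := Finset.abs_sum_le_sum_abs _ _
    _ ≤ ∑ i ∈ Finset.range j, e / 16 := by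
        apply Finset.sum_le_sum
        intro i hi
        have hi' := Finset.mem_range.1 hi
        have h4 := (hz2 i hz).2 (1, -x)
        simp only [mul_one, abs_one] at h4
        have h5 : u i + -x = u i - x := by ring
        rw [h5] at h4
        refine h4.trans ?_
        have h6 := hs i (by omega)
        have h7 := lpos (s i)
        calc G * (1 / ((s i : ℝ) + 1)) ≤ (1 / 16) * e :=
              mul_le_mul h1 h6.le h7.le (by norm_num)
          _ = e / 16 := by ring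
    _ = j * (e / 16) := by rw [Finset.sum_const, Finset.card_range, nsmul_eq_mul]
    _ ≤ m * (e / 16) := by
        apply mul_le_mul_of_nonneg_right _ (by positivity)
        exact_mod_cast hj
    _ = m * e / 16 := by ring


lemma Hit_meas (hxi : StmXi) (f : P2 → ℝ) (u : ℕ → ℝ) (G : ℝ) (s : ℕ → ℕ) (K : Set P2)
    (hK : MeasurableSet K) (h0 : 0 < G) (h1 : G ≤ 1 / 16) (n : ℕ) :
    MeasurableSet (Hit f u G s K n) := by
  have h2 : Hit f u G s K n = (Prod.fst ⁻¹' (Icc (0:ℝ) 1)) ∩ ((Prod.snd ⁻¹' K) ∩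
      ({p : P3 | |Yn f u G s n p.1 p.2| ≤ 3 * G} ∩
      ⋂ j ∈ Finset.range n, {p : P3 | 3 * G < |Yn f u G s j p.1 p.2|})) := by
    ext p
    simp only [Hit, mem_ofPred_eq, mem_inter_iff, mem_preimage, mem_iInter, Finset.mem_range]
  rw [h2]
  refine (measurable_fst measurableSet_Icc).inter ((measurable_snd hK).inter (.inter ?_ ?_))
  · exact measurableSet_le (Yn_meas3 hxi f u G s n h0 h1).abs measurable_const
  · apply Finset.measurableSet_biInter
    intro j _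
    exact measurableSet_lt measurable_const (Yn_meas3 hxi f u G s j h0 h1).abs

lemma Alv_meas (hxi : StmXi) (f : P2 → ℝ) (u : ℕ → ℝ) (G : ℝ) (s : ℕ → ℕ) (K : Set P2)
    (hK : MeasurableSet K) (h0 : 0 < G) (h1 : G ≤ 1 / 16) (k : ℕ) (sg : ℝ) (n : ℕ) :
    MeasurableSet (Alv f u G s K k sg n) := by
  have h2 : Alv f u G s K k sg n = K ∩
      ⋂ j ∈ Finset.range (n + 1), ({z : P2 | 3 * G < sg * Yn f u G s j ((k : ℝ) / 10) z} ∩
        {z : P2 | 3 * G < sg * Yn f u G s j (((k : ℝ) + 1) / 10) z}) := by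
    ext p
    simp only [Alv, mem_ofPred_eq, mem_inter_iff, mem_iInter, Finset.mem_range,
      Nat.lt_succ_iff]
  rw [h2]
  refine hK.inter ?_
  apply Finset.measurableSet_biInter
  intro j _
  refine MeasurableSet.inter ?_ ?_
  · exact measurableSet_lt measurable_const ((Yn_meas hxi f u G s j _ h0 h1).const_mul _)
  · exact measurableSet_lt measurable_const ((Yn_meas hxi f u G s j _ h0 h1).const_mul _)

lemma Hit_sub (f : P2 → ℝ) (u : ℕ → ℝ) (G : ℝ) (s : ℕ → ℕ) (K : Set P2) (n : ℕ) :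
    Hit f u G s K n ⊆ Icc (0:ℝ) 1 ×ˢ K := fun p hp => ⟨hp.1, hp.2.1⟩

lemma volI : volume (Icc (0:ℝ) 1) = 1 := by simp

lemma volK (β : ℝ) (K : Set P2) (hK : K ⊆ Icc (-1:ℝ) 1 ×ˢ Icc (-β) β) (hβ : 0 ≤ β) :
    volume K ≤ ENNReal.ofReal (4 * β) := by
  refine (measure_mono hK).trans ?_
  rw [Measure.volume_eq_prod, Measure.prod_prod, Real.volume_Icc, Real.volume_Icc,
    ← ENNReal.ofReal_mul (by norm_num)]
  apply ENNReal.ofReal_le_ofReal
  linarith

lemma volIK (β : ℝ) (K : Set P2) (hK : K ⊆ Icc (-1:ℝ) 1 ×ˢ Icc (-β) β) (hβ : 0 ≤ β) :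
    volume (Icc (0:ℝ) 1 ×ˢ K) ≤ ENNReal.ofReal (4 * β) := by
  rw [Measure.volume_eq_prod, Measure.prod_prod, volI, one_mul]
  exact volK β K hK hβ

lemma hit_step (f : P2 → ℝ) (G e : ℝ) (K : Set P2) (u : ℕ → ℝ) (s : ℕ → ℕ) (m : ℕ) (he : 0 < e)
    (hs : ∀ n < m, StepOK f u G K e s n) (j d : ℕ) (hj : j + d ≤ m) :
    volume (Phi (fn f u G s (j + d)) '' Hit f u G s K j) ≤
      volume (Phi (fn f u G s j) '' Hit f u G s K j) + ENNReal.ofReal (d * e) := by
  induction d with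
  | zero => simp
  | succ d ih =>
    have h1 := (hs (j + d) (by omega)).usc j (by omega)
    have h2 := ih (by omega)
    rw [← add_assoc j d 1]
    refine h1.trans ?_
    calc volume (Phi (fn f u G s (j + d)) '' Hit f u G s K j) + ENNReal.ofReal e
        ≤ (volume (Phi (fn f u G s j) '' Hit f u G s K j) + ENNReal.ofReal (d * e)) +
          ENNReal.ofReal e := by gcongr
      _ = volume (Phi (fn f u G s j) '' Hit f u G s K j) + ENNReal.ofReal ((d + 1 : ℕ) * e) := by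
          rw [add_assoc, ← ENNReal.ofReal_add (by positivity) he.le]
          congr 2
          push_cast; ring

lemma area_hit (hlip : StmLip) (hxi : StmXi) (harea : StmArea) (f : P2 → ℝ) (L : ℝ≥0)
    (hf : LipschitzWith L f) (β G e : ℝ) (K : Set P2) (u : ℕ → ℝ) (s : ℕ → ℕ) (m : ℕ)
    (hKm : MeasurableSet K) (hK : K ⊆ Icc (-1:ℝ) 1 ×ˢ Icc (-β) β)
    (h0 : 0 < G) (h1 : G ≤ 1 / 16) (hu : ∀ n, u n ∈ Icc (0:ℝ) 1)
    (hae : ∀ᵐ z : P2, z.1 ∈ Icc (-1:ℝ) 1 → ∀ j ≤ m, ∀ x : ℝ,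
      |fderiv ℝ (fn f u G s j) z (1, -x) - Yn f u G s j x z| ≤ m * e / 16) (j : ℕ) (hj : j ≤ m) :
    volume (Phi (fn f u G s j) '' Hit f u G s K j) ≤
      ENNReal.ofReal (3 * G + m * e / 16) * volume (Hit f u G s K j) := by
  have hm := Hit_meas hxi f u G s K hKm h0 h1 j
  have hsub : Hit f u G s K j ⊆ Icc (0:ℝ) 1 ×ˢ (Icc (-1:ℝ) 1 ×ˢ Icc (-β) β) :=
    (Hit_sub f u G s K j).trans (prod_mono le_rfl hK)
  refine (harea (fn f u G s j) (L + j) β _ (fn_lip hlip f L hf u G s h0 h1 hu j) hm hsub).trans ?_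
  have hae3 : ∀ᵐ p : P3, p.2.1 ∈ Icc (-1:ℝ) 1 → ∀ j ≤ m, ∀ x : ℝ,
      |fderiv ℝ (fn f u G s j) p.2 (1, -x) - Yn f u G s j x p.2| ≤ m * e / 16 :=
    Measure.quasiMeasurePreserving_snd.ae hae
  rw [← setLIntegral_const]
  apply lintegral_mono_ae
  filter_upwards [ae_restrict_of_ae hae3, ae_restrict_mem hm] with p hp1 hp2
  apply ENNReal.ofReal_le_ofReal
  have h2 := hp1 (hsub hp2).2.1 j hj p.1
  have h3 := hp2.2.2.1
  have h4 := abs_sub_abs_le_abs_sub (fderiv ℝ (fn f u G s j) p.2 (1, -p.1))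
    (Yn f u G s j p.1 p.2)
  linarith

lemma hit_disj (f : P2 → ℝ) (G : ℝ) (K : Set P2) (u : ℕ → ℝ) (s : ℕ → ℕ) :
    Pairwise (Function.onFun Disjoint (fun j => Hit f u G s K j)) := by
  have key : ∀ i j : ℕ, i < j → Disjoint (Hit f u G s K i) (Hit f u G s K j) := by
    intro i j hij
    rw [Set.disjoint_left]
    intro p hp hp'
    have h1 := hp.2.2.1
    have h2 := hp'.2.2.2 i hij
    linarith
  intro i j hij
  rcases lt_or_gt_of_ne hij with h | h
  · exact key i j h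
  · exact (key j i h).symm

lemma hit_total (hlip : StmLip) (hxi : StmXi) (harea : StmArea) (f : P2 → ℝ) (L : ℝ≥0)
    (hf : LipschitzWith L f) (β G e : ℝ) (K : Set P2) (u : ℕ → ℝ) (s : ℕ → ℕ) (m : ℕ)
    (hKm : MeasurableSet K) (hK : K ⊆ Icc (-1:ℝ) 1 ×ˢ Icc (-β) β) (hβ : 0 ≤ β)
    (h0 : 0 < G) (h1 : G ≤ 1 / 16) (he : 0 < e) (hu : ∀ n, u n ∈ Icc (0:ℝ) 1)
    (hs : ∀ n < m, StepOK f u G K e s n)
    (hae : ∀ᵐ z : P2, z.1 ∈ Icc (-1:ℝ) 1 → ∀ j ≤ m, ∀ x : ℝ,
      |fderiv ℝ (fn f u G s j) z (1, -x) - Yn f u G s j x z| ≤ m * e / 16) :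
    volume (⋃ j ∈ Finset.range (m + 1), Phi (fn f u G s m) '' Hit f u G s K j) ≤
      ENNReal.ofReal ((3 * G + m * e / 16) * (4 * β) + (m + 1) ^ 2 * e) := by
  refine (measure_biUnion_finset_le _ _).trans ?_
  have h2 : ∀ j ∈ Finset.range (m + 1), volume (Phi (fn f u G s m) '' Hit f u G s K j) ≤
      ENNReal.ofReal (3 * G + m * e / 16) * volume (Hit f u G s K j) +
        ENNReal.ofReal ((m + 1) * e) := by
    intro j hj
    have hj' : j ≤ m := Nat.lt_succ_iff.1 (Finset.mem_range.1 hj)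
    obtain ⟨d, rfl⟩ := Nat.exists_eq_add_of_le hj'
    refine (hit_step f G e K u s (j + d) he hs j d le_rfl).trans ?_
    refine add_le_add (area_hit hlip hxi harea f L hf β G e K u s (j + d) hKm hK h0 h1 hu hae j
      (by omega)) ?_
    apply ENNReal.ofReal_le_ofReal
    apply mul_le_mul_of_nonneg_right _ he.le
    push_cast
    have : (0:ℝ) ≤ j := Nat.cast_nonneg j
    linarith
  refine (Finset.sum_le_sum h2).trans ?_
  rw [Finset.sum_add_distrib, ← Finset.mul_sum]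
  have h3 : ∑ j ∈ Finset.range (m + 1), volume (Hit f u G s K j) ≤ ENNReal.ofReal (4 * β) := by
    rw [← measure_biUnion_finset (fun i _ j _ hij => hit_disj f G K u s hij)
      (fun j _ => Hit_meas hxi f u G s K hKm h0 h1 j)]
    refine le_trans (measure_mono ?_) (volIK β K hK hβ)
    exact iUnion₂_subset (fun j _ => Hit_sub f u G s K j)
  have hA : 0 ≤ 3 * G + m * e / 16 := by positivity
  have hB : (0:ℝ) ≤ 4 * β := by positivity
  rw [ENNReal.ofReal_add (mul_nonneg hA hB) (by positivity), ENNReal.ofReal_mul hA]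
  refine add_le_add (mul_le_mul_right h3 _) ?_
  rw [Finset.sum_const, Finset.card_range, nsmul_eq_mul]
  have : ((m + 1 : ℕ) : ℝ≥0∞) = ENNReal.ofReal ((m : ℝ) + 1) := by
    rw [← ENNReal.ofReal_natCast]; push_cast; rfl
  rw [this, ← ENNReal.ofReal_mul (by positivity)]
  apply ENNReal.ofReal_le_ofReal
  apply le_of_eq; ring


lemma Ym_le (f : P2 → ℝ) (u : ℕ → ℝ) (G : ℝ) (s : ℕ → ℕ) (K : Set P2) (k : ℕ) (hk : k < 10)
    (sg : ℝ) (hsg : sg = 1 ∨ sg = -1) (m : ℕ) (h0 : 0 < G) (z : P2)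
    (hz : z ∈ Alv f u G s K k sg m) (x : ℝ) (hx : x ∈ Icc (0:ℝ) 1) :
    |Yn f u G s m x z| ≤ 11 * (sg * (Yn f u G s m ((k : ℝ) / 10) z +
      Yn f u G s m (((k : ℝ) + 1) / 10) z)) := by
  obtain ⟨h1, h2⟩ := hz.2 m le_rfl
  set P := Pn f u G s m z
  set R := Rn f u G s m z
  rw [Yn_eq] at h1 h2 ⊢
  rw [Yn_eq, Yn_eq]
  set Y1 := Pn f u G s m z - (k : ℝ) / 10 * Rn f u G s m z with hY1
  set Y2 := Pn f u G s m z - ((k : ℝ) + 1) / 10 * Rn f u G s m z with hY2
  have h3 : Pn f u G s m z - x * Rn f u G s m z =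
      (1 - (10 * x - k)) * Y1 + (10 * x - k) * Y2 := by
    rw [hY1, hY2]; ring
  rw [h3]
  have hk0 : (0:ℝ) ≤ k := Nat.cast_nonneg k
  have hk9 : (k:ℝ) ≤ 9 := by exact_mod_cast Nat.lt_succ_iff.1 hk
  have h4 : |1 - (10 * x - k)| ≤ 10 := by
    rw [abs_le]; constructor <;> linarith [hx.1, hx.2]
  have h5 : |10 * x - (k:ℝ)| ≤ 10 := by
    rw [abs_le]; constructor <;> linarith [hx.1, hx.2]
  have h6 : |Y1| = sg * Y1 := by
    rcases hsg with rfl | rfl
    · rw [one_mul] at h1 ⊢; exact abs_of_pos (by linarith)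
    · rw [neg_one_mul] at h1 ⊢; exact abs_of_neg (by linarith)
  have h7 : |Y2| = sg * Y2 := by
    rcases hsg with rfl | rfl
    · rw [one_mul] at h2 ⊢; exact abs_of_pos (by linarith)
    · rw [neg_one_mul] at h2 ⊢; exact abs_of_neg (by linarith)
  calc |(1 - (10 * x - k)) * Y1 + (10 * x - k) * Y2|
      ≤ |(1 - (10 * x - k)) * Y1| + |(10 * x - k) * Y2| := abs_add_le _ _
    _ = |1 - (10 * x - k)| * |Y1| + |10 * x - (k:ℝ)| * |Y2| := by rw [abs_mul, abs_mul]
    _ ≤ 10 * |Y1| + 10 * |Y2| := by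
        gcongr
    _ ≤ 11 * (sg * (Y1 + Y2)) := by
        rw [h6, h7]; nlinarith [h1, h2]

lemma alv_int (hxi : StmXi) (f : P2 → ℝ) (L : ℝ≥0)
    (hf : LipschitzWith L f) (β G : ℝ) (K : Set P2) (u : ℕ → ℝ) (s : ℕ → ℕ) (m : ℕ)
    (hKm : MeasurableSet K) (hK : K ⊆ Icc (-1:ℝ) 1 ×ˢ Icc (-β) β) (hβ : 0 ≤ β)
    (h0 : 0 < G) (h1 : G ≤ 1 / 16) (hu : ∀ n, u n ∈ Icc (0:ℝ) 1)
    (k : ℕ) (hk : k < 10) (sg : ℝ) (x : ℝ) (hx : x ∈ Icc (0:ℝ) 1) :
    IntegrableOn (Yn f u G s m x) (Alv f u G s K k sg m) := by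
  have hfin : volume (Alv f u G s K k sg m) < ⊤ :=
    lt_of_le_of_lt ((measure_mono (fun z hz => hz.1)).trans (volK β K hK hβ))
      ENNReal.ofReal_lt_top
  apply Measure.integrableOn_of_bounded hfin.ne
    (Yn_meas hxi f u G s m x h0 h1).aestronglyMeasurable (M := L + 2 * G * m)
  refine Eventually.of_forall (fun z => ?_)
  exact Y_bound hxi f L hf u G s m x z h0 h1 hu hx

lemma area_alv (hlip : StmLip) (hxi : StmXi) (harea : StmArea) (f : P2 → ℝ) (L : ℝ≥0)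
    (hf : LipschitzWith L f) (β G e : ℝ) (K : Set P2) (u : ℕ → ℝ) (s : ℕ → ℕ) (m : ℕ)
    (hKm : MeasurableSet K) (hK : K ⊆ Icc (-1:ℝ) 1 ×ˢ Icc (-β) β) (hβ : 0 ≤ β)
    (h0 : 0 < G) (h1 : G ≤ 1 / 16) (he : 0 < e) (hu : ∀ n, u n ∈ Icc (0:ℝ) 1)
    (hae : ∀ᵐ z : P2, z.1 ∈ Icc (-1:ℝ) 1 → ∀ j ≤ m, ∀ x : ℝ,
      |fderiv ℝ (fn f u G s j) z (1, -x) - Yn f u G s j x z| ≤ m * e / 16)
    (k : ℕ) (hk : k < 10) (sg : ℝ) (hsg : sg = 1 ∨ sg = -1) :
    volume (Phi (fn f u G s m) '' (Icc (0:ℝ) 1 ×ˢ Alv f u G s K k sg m)) ≤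
      ENNReal.ofReal (11 * (sg * ∫ z in Alv f u G s K k sg m,
        (Yn f u G s m ((k : ℝ) / 10) z + Yn f u G s m (((k : ℝ) + 1) / 10) z)) +
          m * e / 16 * (4 * β)) ∧
    0 ≤ sg * ∫ z in Alv f u G s K k sg m,
        (Yn f u G s m ((k : ℝ) / 10) z + Yn f u G s m (((k : ℝ) + 1) / 10) z) := by
  set A := Alv f u G s K k sg m with hA
  have hAm : MeasurableSet A := Alv_meas hxi f u G s K hKm h0 h1 k sg m
  have hAK : A ⊆ K := fun z hz => hz.1
  have hvA : volume A ≤ ENNReal.ofReal (4 * β) := (measure_mono hAK).trans (volK β K hK hβ)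
  have hk0 : (0:ℝ) ≤ k := Nat.cast_nonneg k
  have hk9 : (k:ℝ) ≤ 9 := by exact_mod_cast Nat.lt_succ_iff.1 hk
  have hx1 : (k:ℝ) / 10 ∈ Icc (0:ℝ) 1 := ⟨by positivity, by linarith⟩
  have hx2 : ((k:ℝ) + 1) / 10 ∈ Icc (0:ℝ) 1 := ⟨by positivity, by linarith⟩
  have hi1 := alv_int hxi f L hf β G K u s m hKm hK hβ h0 h1 hu k hk sg _ hx1
  have hi2 := alv_int hxi f L hf β G K u s m hKm hK hβ h0 h1 hu k hk sg _ hx2
  rw [← hA] at hi1 hi2
  have hi := hi1.add hi2
  set Y : P2 → ℝ := fun z => Yn f u G s m ((k : ℝ) / 10) z + Yn f u G s m (((k : ℝ) + 1) / 10) z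
    with hY
  have hi' : IntegrableOn Y A := hi
  have hpos : ∀ z ∈ A, 0 ≤ sg * Y z := by
    intro z hz
    obtain ⟨h2, h3⟩ := hz.2 m le_rfl
    simp only [hY]; nlinarith
  have hnn : 0 ≤ sg * ∫ z in A, Y z := by
    rw [← integral_const_mul]
    exact setIntegral_nonneg hAm hpos
  refine ⟨?_, hnn⟩
  have hsub : Icc (0:ℝ) 1 ×ˢ A ⊆ Icc (0:ℝ) 1 ×ˢ (Icc (-1:ℝ) 1 ×ˢ Icc (-β) β) :=
    prod_mono le_rfl (hAK.trans hK)
  have hIA : MeasurableSet (Icc (0:ℝ) 1 ×ˢ A) := measurableSet_Icc.prod hAm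
  refine (harea (fn f u G s m) (L + m) β _ (fn_lip hlip f L hf u G s h0 h1 hu m) hIA hsub).trans ?_
  have hae3 : ∀ᵐ p : P3, p.2.1 ∈ Icc (-1:ℝ) 1 → ∀ j ≤ m, ∀ x : ℝ,
      |fderiv ℝ (fn f u G s j) p.2 (1, -x) - Yn f u G s j x p.2| ≤ m * e / 16 :=
    Measure.quasiMeasurePreserving_snd.ae hae
  have hme : 0 ≤ (m:ℝ) * e / 16 := by positivity
  calc ∫⁻ p in Icc (0:ℝ) 1 ×ˢ A, ENNReal.ofReal |fderiv ℝ (fn f u G s m) p.2 (1, -p.1)|
      ≤ ∫⁻ p in Icc (0:ℝ) 1 ×ˢ A, ENNReal.ofReal (11 * (sg * Y p.2) + m * e / 16) := by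
        apply lintegral_mono_ae
        filter_upwards [ae_restrict_of_ae hae3, ae_restrict_mem hIA] with p hp1 hp2
        apply ENNReal.ofReal_le_ofReal
        have h2 := hp1 (hsub hp2).2.1 m le_rfl p.1
        have h3 := Ym_le f u G s K k hk sg hsg m h0 p.2 hp2.2 p.1 hp2.1
        have h4 := abs_sub_abs_le_abs_sub (fderiv ℝ (fn f u G s m) p.2 (1, -p.1))
          (Yn f u G s m p.1 p.2)
        linarith
    _ = ∫⁻ z in A, ENNReal.ofReal (11 * (sg * Y z) + m * e / 16) := by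
        have h5 : (volume : Measure P3).restrict (Icc (0:ℝ) 1 ×ˢ A) =
            ((volume : Measure ℝ).restrict (Icc (0:ℝ) 1)).prod
              ((volume : Measure P2).restrict A) := by
          rw [Measure.prod_restrict]; rfl
        rw [h5]
        have h6 : AEMeasurable (fun z => ENNReal.ofReal (11 * (sg * Y z) + m * e / 16))
            ((volume : Measure P2).restrict A) := by
          apply Measurable.aemeasurable
          apply ENNReal.measurable_ofReal.comp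
          exact ((((Yn_meas hxi f u G s m _ h0 h1).add
            (Yn_meas hxi f u G s m _ h0 h1)).const_mul sg).const_mul 11).add_const _
        have h7 := lintegral_prod_mul (μ := (volume : Measure ℝ).restrict (Icc (0:ℝ) 1))
          (ν := (volume : Measure P2).restrict A) (f := fun _ => 1)
          (g := fun z => ENNReal.ofReal (11 * (sg * Y z) + m * e / 16))
          measurable_const.aemeasurable h6
        simp only [one_mul] at h7
        rw [h7, setLIntegral_const, volI, one_mul, one_mul]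
    _ = ENNReal.ofReal (∫ z in A, (11 * (sg * Y z) + m * e / 16)) := by
        rw [ofReal_integral_eq_lintegral_ofReal]
        · refine Integrable.add ((hi'.const_mul sg).const_mul 11) ?_
          exact integrableOn_const (hs := (lt_of_le_of_lt hvA ENNReal.ofReal_lt_top).ne)
        · filter_upwards [ae_restrict_mem hAm] with z hz
          have := hpos z hz
          show (0:ℝ) ≤ 11 * (sg * Y z) + m * e / 16
          linarith
    _ ≤ ENNReal.ofReal (11 * (sg * ∫ z in A, Y z) + m * e / 16 * (4 * β)) := by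
        apply ENNReal.ofReal_le_ofReal
        rw [integral_add ((hi'.const_mul sg).const_mul 11)
          (integrableOn_const (hs := (lt_of_le_of_lt hvA ENNReal.ofReal_lt_top).ne)),
          integral_const_mul, integral_const_mul, setIntegral_const, smul_eq_mul]
        have h8 : volume.real A ≤ 4 * β := by
          unfold Measure.real
          exact ENNReal.toReal_le_of_le_ofReal (by positivity) hvA
        nlinarith

lemma coverage (hxi : StmXi) (hnever : StmNever) (f : P2 → ℝ) (G : ℝ) (K : Set P2) (u : ℕ → ℝ)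
    (s : ℕ → ℕ) (m : ℕ) (h0 : 0 < G) (h1 : G ≤ 1 / 16) (hu : ∀ n, u n ∈ Icc (0:ℝ) 1)
    (U : Set P3) (hU1 : ∀ j ≤ m, Phi (fn f u G s m) '' Hit f u G s K j ⊆ U)
    (hU2 : ∀ k < 10, ∀ sg : ℝ, (sg = 1 ∨ sg = -1) →
      Phi (fn f u G s m) '' (Icc (0:ℝ) 1 ×ˢ Alv f u G s K k sg m) ⊆ U) (z : P2) (hz : z ∈ K) :
    1 / 2 < volume {x : ℝ | x ∈ Icc (0:ℝ) 1 ∧ (fn f u G s m z, x, q x z) ∈ U} := by
  classical
  by_cases hA : 1 / 2 ≤ volume {x : ℝ | x ∈ Icc (0:ℝ) 1 ∧
      ∀ n ≤ m, 3 * G < |Pn f u G s n z - x * Rn f u G s n z|}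
  · obtain ⟨k, hk, sg, hsg, hks⟩ := hnever G m (fun n => Pn f u G s n z)
      (fun n => Rn f u G s n z) h0 (fun n _ x hx => by
        have := Y_step hxi f u G s n x z h0 h1 hu hx
        rwa [Yn_eq, Yn_eq] at this) hA
    have hzA : z ∈ Alv f u G s K k sg m := by
      refine ⟨hz, fun j hj => ?_⟩
      rw [Yn_eq, Yn_eq]
      exact hks j hj
    have h2 : {x : ℝ | x ∈ Icc (0:ℝ) 1 ∧ (fn f u G s m z, x, q x z) ∈ U} = Icc (0:ℝ) 1 := by
      ext x
      constructor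
      · exact fun h => h.1
      · intro hx
        exact ⟨hx, hU2 k hk sg hsg ⟨(x, z), ⟨hx, hzA⟩, rfl⟩⟩
    rw [h2, volI]
    exact ENNReal.half_lt_self one_ne_zero ENNReal.one_ne_top
  · push Not at hA
    set A := {x : ℝ | x ∈ Icc (0:ℝ) 1 ∧
      ∀ n ≤ m, 3 * G < |Pn f u G s n z - x * Rn f u G s n z|} with hAdef
    set B := {x : ℝ | x ∈ Icc (0:ℝ) 1 ∧ (fn f u G s m z, x, q x z) ∈ U} with hBdef
    have hcov : Icc (0:ℝ) 1 ⊆ A ∪ B := by
      intro x hx
      by_cases hxA : x ∈ A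
      · exact Or.inl hxA
      · right
        have h3 : ∃ n, n ≤ m ∧ |Pn f u G s n z - x * Rn f u G s n z| ≤ 3 * G := by
          by_contra hcon
          push Not at hcon
          exact hxA ⟨hx, fun n hn => hcon n hn⟩
        have h4 := Nat.find_spec h3
        have h5 : ∀ j < Nat.find h3, 3 * G < |Pn f u G s j z - x * Rn f u G s j z| := by
          intro j hj
          have h6 := Nat.find_min h3 hj
          push Not at h6
          exact h6 (le_trans hj.le h4.1)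
        refine ⟨hx, hU1 (Nat.find h3) h4.1 ⟨(x, z), ⟨hx, hz, ?_, ?_⟩, rfl⟩⟩
        · show |Yn f u G s (Nat.find h3) x z| ≤ 3 * G
          rw [Yn_eq]; exact h4.2
        · intro j hj
          show 3 * G < |Yn f u G s j x z|
          rw [Yn_eq]; exact h5 j hj
    by_contra hB
    push Not at hB
    have h7 : (1:ℝ≥0∞) ≤ volume A + volume B := by
      rw [← volI]
      exact (measure_mono hcov).trans (measure_union_le _ _)
    have h8 : volume A + volume B < 1 / 2 + 1 / 2 := ENNReal.add_lt_add_of_lt_of_le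
      (lt_of_le_of_lt hB (by norm_num)).ne hA hB
    rw [ENNReal.add_halves] at h8
    exact absurd h7 (not_le.2 h8)

theorem c1 (hlip : StmLip) (hxi : StmXi) (hgrad : StmGrad) (harea : StmArea)
    (hnever : StmNever) : StmCost := by
  intro f L β G e K u s m hf hKc hK hβ h0 h1 he _ hu hs
  have hKm : MeasurableSet K := hKc.isClosed.measurableSet
  have hae := ae_bound hgrad f L hf u G e s h0 h1 hu m he (fun n hn => (hs n hn).small)
  set S1 : Set P3 := ⋃ j ∈ Finset.range (m + 1), Phi (fn f u G s m) '' Hit f u G s K j with hS1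
  set S2 : Set P3 := ⋃ k ∈ Finset.range 10,
    Phi (fn f u G s m) '' (Icc (0:ℝ) 1 ×ˢ Alv f u G s K k 1 m) with hS2
  set S3 : Set P3 := ⋃ k ∈ Finset.range 10,
    Phi (fn f u G s m) '' (Icc (0:ℝ) 1 ×ˢ Alv f u G s K k (-1) m) with hS3
  obtain ⟨U, hSU, hUo, hUv⟩ := (S1 ∪ (S2 ∪ S3)).exists_isOpen_le_add volume
    (ε := ENNReal.ofReal e) (by simpa using he)
  have hk1 := fun k (hk : k < 10) => area_alv hlip hxi harea f L hf β G e K u s m hKm hK hβ h0 h1
    he hu hae k hk 1 (Or.inl rfl)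
  have hk2 := fun k (hk : k < 10) => area_alv hlip hxi harea f L hf β G e K u s m hKm hK hβ h0 h1
    he hu hae k hk (-1) (Or.inr rfl)
  refine ⟨U, hUo, ?_, ?_⟩
  · have hv1 := hit_total hlip hxi harea f L hf β G e K u s m hKm hK hβ h0 h1 he hu hs hae
    have hme : 0 ≤ (m:ℝ) * e / 16 := by positivity
    have hv2 : volume S2 ≤ ENNReal.ofReal (∑ k ∈ Finset.range 10,
        (11 * (1 * ∫ z in Alv f u G s K k 1 m,
        (Yn f u G s m ((k : ℝ) / 10) z + Yn f u G s m (((k : ℝ) + 1) / 10) z)) +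
          m * e / 16 * (4 * β))) := by
      rw [ENNReal.ofReal_sum_of_nonneg]
      · refine (measure_biUnion_finset_le _ _).trans (Finset.sum_le_sum ?_)
        intro k hk
        exact (hk1 k (Finset.mem_range.1 hk)).1
      · intro k hk
        have := (hk1 k (Finset.mem_range.1 hk)).2
        positivity
    have hv3 : volume S3 ≤ ENNReal.ofReal (∑ k ∈ Finset.range 10,
        (11 * (-1 * ∫ z in Alv f u G s K k (-1) m,
        (Yn f u G s m ((k : ℝ) / 10) z + Yn f u G s m (((k : ℝ) + 1) / 10) z)) +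
          m * e / 16 * (4 * β))) := by
      rw [ENNReal.ofReal_sum_of_nonneg]
      · refine (measure_biUnion_finset_le _ _).trans (Finset.sum_le_sum ?_)
        intro k hk
        exact (hk2 k (Finset.mem_range.1 hk)).1
      · intro k hk
        have := (hk2 k (Finset.mem_range.1 hk)).2
        positivity
    have hn2 : 0 ≤ ∑ k ∈ Finset.range 10,
        (11 * (1 * ∫ z in Alv f u G s K k 1 m,
        (Yn f u G s m ((k : ℝ) / 10) z + Yn f u G s m (((k : ℝ) + 1) / 10) z)) +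
          m * e / 16 * (4 * β)) := by
      apply Finset.sum_nonneg
      intro k hk
      have := (hk1 k (Finset.mem_range.1 hk)).2
      positivity
    have hn3 : 0 ≤ ∑ k ∈ Finset.range 10,
        (11 * (-1 * ∫ z in Alv f u G s K k (-1) m,
        (Yn f u G s m ((k : ℝ) / 10) z + Yn f u G s m (((k : ℝ) + 1) / 10) z)) +
          m * e / 16 * (4 * β)) := by
      apply Finset.sum_nonneg
      intro k hk
      have := (hk2 k (Finset.mem_range.1 hk)).2
      positivity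
    calc volume U ≤ volume (S1 ∪ (S2 ∪ S3)) + ENNReal.ofReal e := hUv
      _ ≤ (volume S1 + (volume S2 + volume S3)) + ENNReal.ofReal e := by
          gcongr
          exact (measure_union_le _ _).trans (add_le_add le_rfl (measure_union_le _ _))
      _ ≤ (ENNReal.ofReal ((3 * G + m * e / 16) * (4 * β) + (m + 1) ^ 2 * e) +
          (ENNReal.ofReal (∑ k ∈ Finset.range 10,
            (11 * (1 * ∫ z in Alv f u G s K k 1 m,
            (Yn f u G s m ((k : ℝ) / 10) z + Yn f u G s m (((k : ℝ) + 1) / 10) z)) +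
              m * e / 16 * (4 * β))) +
          ENNReal.ofReal (∑ k ∈ Finset.range 10,
            (11 * (-1 * ∫ z in Alv f u G s K k (-1) m,
            (Yn f u G s m ((k : ℝ) / 10) z + Yn f u G s m (((k : ℝ) + 1) / 10) z)) +
              m * e / 16 * (4 * β))))) + ENNReal.ofReal e := by gcongr
      _ = ENNReal.ofReal (((3 * G + m * e / 16) * (4 * β) + (m + 1) ^ 2 * e) +
          ((∑ k ∈ Finset.range 10,
            (11 * (1 * ∫ z in Alv f u G s K k 1 m,
            (Yn f u G s m ((k : ℝ) / 10) z + Yn f u G s m (((k : ℝ) + 1) / 10) z)) +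
              m * e / 16 * (4 * β))) +
          (∑ k ∈ Finset.range 10,
            (11 * (-1 * ∫ z in Alv f u G s K k (-1) m,
            (Yn f u G s m ((k : ℝ) / 10) z + Yn f u G s m (((k : ℝ) + 1) / 10) z)) +
              m * e / 16 * (4 * β)))) + e) := by
          have hn1 : 0 ≤ (3 * G + m * e / 16) * (4 * β) + (m + 1) ^ 2 * e := by positivity
          rw [ENNReal.ofReal_add (add_nonneg hn1 (add_nonneg hn2 hn3)) he.le,
            ENNReal.ofReal_add hn1 (add_nonneg hn2 hn3), ENNReal.ofReal_add hn2 hn3]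
      _ ≤ _ := by
          apply ENNReal.ofReal_le_ofReal
          have e1 : 0 ≤ ∑ k ∈ Finset.range 10, (1 * ∫ z in Alv f u G s K k 1 m,
            (Yn f u G s m ((k : ℝ) / 10) z + Yn f u G s m (((k : ℝ) + 1) / 10) z)) :=
            Finset.sum_nonneg (fun k hk => (hk1 k (Finset.mem_range.1 hk)).2)
          have e2 : 0 ≤ ∑ k ∈ Finset.range 10, (-1 * ∫ z in Alv f u G s K k (-1) m,
            (Yn f u G s m ((k : ℝ) / 10) z + Yn f u G s m (((k : ℝ) + 1) / 10) z)) :=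
            Finset.sum_nonneg (fun k hk => (hk2 k (Finset.mem_range.1 hk)).2)
          simp only [Finset.sum_add_distrib, ← Finset.mul_sum, Finset.sum_const,
            Finset.card_range] at e1 e2 ⊢
          set I1 := ∑ k ∈ Finset.range 10, ∫ z in Alv f u G s K k 1 m,
            (Yn f u G s m ((k : ℝ) / 10) z + Yn f u G s m (((k : ℝ) + 1) / 10) z)
          set I2 := ∑ k ∈ Finset.range 10, ∫ z in Alv f u G s K k (-1) m,
            (Yn f u G s m ((k : ℝ) / 10) z + Yn f u G s m (((k : ℝ) + 1) / 10) z)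
          have hb : 0 ≤ (m:ℝ) * β * e := by positivity
          have hb2 : 0 ≤ β * e := by positivity
          simp only [nsmul_eq_mul]
          push_cast
          nlinarith
  · intro z hz
    apply coverage hxi hnever f G K u s m h0 h1 hu U ?_ ?_ z hz
    · intro j hj
      refine subset_trans ?_ hSU
      refine subset_trans ?_ subset_union_left
      exact subset_biUnion_of_mem (u := fun j => Phi (fn f u G s m) '' Hit f u G s K j)
        (Finset.mem_coe.2 (Finset.mem_range.2 (by omega)))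
    · intro k hk sg hsg
      refine subset_trans ?_ hSU
      refine subset_trans ?_ subset_union_right
      rcases hsg with rfl | rfl
      · refine subset_trans ?_ subset_union_left
        exact subset_biUnion_of_mem
          (u := fun k => Phi (fn f u G s m) '' (Icc (0:ℝ) 1 ×ˢ Alv f u G s K k 1 m))
          (Finset.mem_coe.2 (Finset.mem_range.2 hk))
      · refine subset_trans ?_ subset_union_right
        exact subset_biUnion_of_mem
          (u := fun k => Phi (fn f u G s m) '' (Icc (0:ℝ) 1 ×ˢ Alv f u G s K k (-1) m))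
          (Finset.mem_coe.2 (Finset.mem_range.2 hk))

end Pool.Agent.T6.H18.CR.C
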