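import Pool.Agent.T6.H18.CR.Stm

set_option autoImplicit false
open MeasureTheory Set Filter Topology
open scoped ENNReal NNReal Real

namespace Pool.Agent.T6.H18.CR.CO

lemma qmp (j : ℕ) : Measure.QuasiMeasurePreserving (ci j) volume volume := by
  by_cases h : par j = true
  · have e : ci j = (fun p : P2 => (p.2 - TT j, p.1)) := by
      funext p; simp [ci, h]
    have h1 : MeasurePreserving (fun p : ℝ × ℝ => (p.2, p.1)) (volume : Measure (ℝ × ℝ))
        (volume : Measure (ℝ × ℝ)) := by
      rw [Measure.volume_eq_prod]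
      exact Measure.measurePreserving_swap
    have h2 : MeasurePreserving (fun p : ℝ × ℝ => (p.1 - TT j, p.2)) (volume : Measure (ℝ × ℝ))
        (volume : Measure (ℝ × ℝ)) := by
      rw [Measure.volume_eq_prod]
      exact (measurePreserving_sub_right volume (TT j)).prod (MeasurePreserving.id volume)
    have h3 := h2.comp h1
    rw [e]
    exact h3.quasiMeasurePreserving
  · have e : ci j = (fun p : P2 => (p.1 - TT j, p.2)) := by
      funext p; simp [ci, h]
    have h2 : MeasurePreserving (fun p : ℝ × ℝ => (p.1 - TT j, p.2)) (volume : Measure (ℝ × ℝ))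
        (volume : Measure (ℝ × ℝ)) := by
      rw [Measure.volume_eq_prod]
      exact (measurePreserving_sub_right volume (TT j)).prod (MeasurePreserving.id volume)
    rw [e]
    exact h2.quasiMeasurePreserving

lemma jj_pair (j n : ℕ) : jj (Nat.pair j n) = j := by simp [jj]

lemma bt_pos (j : ℕ) : 0 < bt j := by unfold bt TT; positivity

theorem co (hi : StmIter) (hg : StmGlob) (hl : StmLimsup) : StmCore := by
  obtain ⟨W, J, ε, η, U, hS⟩ := hi
  obtain ⟨hE, hE0, hE1, hmain⟩ := hg W J ε η U hS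
  refine ⟨Einf W, hE, hE0, hE1, ?_⟩
  have hsum : ∀ j : ℕ, (∑' n, volume (U (Nat.pair j n))) ≠ ⊤ := by
    intro j
    have hb : ∀ n, volume (U (Nat.pair j n)) ≤ ENNReal.ofReal ((1 / 2 : ℝ) ^ n) := by
      intro n
      refine (hS.volU _).trans (ENNReal.ofReal_le_ofReal ?_)
      have h1 := hS.εsmall (Nat.pair j n)
      have h2 := hS.εpos (Nat.pair j n)
      have h3 := bt_pos (jj (Nat.pair j n))
      have h4 : ε (Nat.pair j n) ≤ (1 / 2 : ℝ) ^ (Nat.pair j n) := by
        nlinarith
      refine h4.trans ?_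
      exact pow_le_pow_of_le_one (by norm_num) (by norm_num) (Nat.right_le_pair j n)
    refine ne_top_of_le_ne_top ?_ (ENNReal.tsum_le_tsum hb)
    rw [← ENNReal.ofReal_tsum_of_nonneg (fun n => by positivity)
      (summable_geometric_of_lt_one (by norm_num) (by norm_num))]
    exact ENNReal.ofReal_ne_top
  have hae : ∀ᵐ t : ℝ, ∀ j : ℕ, ∃ N : Set P2, MeasurableSet N ∧ volume N = 0 ∧
      ∀ z : P2, (∃ᶠ n in atTop, 1 / 2 ≤ volume {x : ℝ | x ∈ Icc (0:ℝ) 1 ∧
        (t, x, q x z) ∈ U (Nat.pair j n)}) →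
        1 / 2 ≤ volume {x : ℝ | x ∈ Icc (0:ℝ) 1 ∧ (x, q x z) ∈ N} := by
    rw [ae_all_iff]
    intro j
    exact hl (fun n => U (Nat.pair j n)) (fun n => (hS.openU _).measurableSet) (hsum j)
  filter_upwards [hae] with t ht ht01
  choose N hNm hN0 hN using ht
  refine ⟨⋃ j, ci j ⁻¹' N j, ?_, ?_, ?_⟩
  · exact MeasurableSet.iUnion fun j => (qmp j).measurable (hNm j)
  · rw [measure_iUnion_null_iff]
    intro j
    exact (qmp j).preimage_null (hN0 j)
  · intro s z hz hlen
    obtain ⟨j, hj, hcov⟩ := hmain s z hz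
    have h1 := (hcov t ht01 hlen).frequently
    have h2 := hN j _ h1
    refine h2.trans ?_
    have h3 : {x : ℝ | x ∈ Icc (0:ℝ) 1 ∧ (x, q x (z.1, z.2 + z.1 * TT j)) ∈ N j} ⊆
        (fun x => x + TT j) ⁻¹' {x : ℝ | pt s z x ∈ ⋃ j, ci j ⁻¹' N j} := by
      rintro x ⟨-, hx⟩
      simp only [mem_preimage, mem_ofPred_eq, mem_iUnion]
      refine ⟨j, ?_⟩
      have : ci j (pt s z (x + TT j)) = (x, q x (z.1, z.2 + z.1 * TT j)) := by
        unfold ci pt
        cases s
        · rw [hj]; simp [q]; ring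
        · rw [hj]; simp [q]; ring
      rw [this]
      exact hx
    refine (measure_mono h3).trans ?_
    rw [measure_preimage_add_right]

end Pool.Agent.T6.H18.CR.CO
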