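import Pool.Agent.T6.H18.CR.Stm

set_option autoImplicit false
open MeasureTheory Set Filter Topology
open scoped ENNReal NNReal Real

namespace Pool.Agent.T6.H18.CR.FI

open Pool.Agent.T6.H18.CR

theorem fi (hcore : StmCore) (hsel : StmSel) (hh : StmHaus) (hl : StmLine) (hp : StmPl) :
    StmFinal := by
  obtain ⟨E₁, hE₁m, hE₁pos, hE₁fin, hae⟩ := hcore
  obtain ⟨hbij, hvol, hmeas⟩ := hp
  have ht : ∀ k : ℕ, ∃ t : ℝ, 0 < t ∧ t < 1 / 2 ∧ t < 1 / ((k : ℝ) + 1) ∧
      ∃ N : Set P2, MeasurableSet N ∧ volume N = 0 ∧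
      ∀ (s : Bool) (z : P2), z.1 ∈ Icc (-1:ℝ) 1 → len s z E₁ = ENNReal.ofReal t →
        1 / 2 ≤ volume {x : ℝ | pt s z x ∈ N} := by
    intro k
    have hpos : 0 < min (1 / 2 : ℝ) (1 / ((k : ℝ) + 1)) := by positivity
    have h1 : volume (Ioo (0:ℝ) (min (1 / 2 : ℝ) (1 / ((k : ℝ) + 1)))) ≠ 0 := by
      rw [Real.volume_Ioo]
      simp only [sub_zero, ne_eq, ENNReal.ofReal_eq_zero, not_le]
      exact hpos
    have h2 : ∃ᵐ t : ℝ, t ∈ Ioo (0:ℝ) (min (1 / 2 : ℝ) (1 / ((k : ℝ) + 1))) := by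
      intro h
      apply h1
      have : {t : ℝ | ¬ ¬ t ∈ Ioo (0:ℝ) (min (1 / 2 : ℝ) (1 / ((k : ℝ) + 1)))} =
          Ioo (0:ℝ) (min (1 / 2 : ℝ) (1 / ((k : ℝ) + 1))) := by
        ext t
        simp only [not_not, mem_setOf_eq]
      rw [← this]
      exact h
    obtain ⟨t, htm, htN⟩ := (h2.and_eventually hae).exists
    have hm1 := min_le_left (1 / 2 : ℝ) (1 / ((k : ℝ) + 1))
    have hm2 := min_le_right (1 / 2 : ℝ) (1 / ((k : ℝ) + 1))
    refine ⟨t, htm.1, lt_of_lt_of_le htm.2 hm1, lt_of_lt_of_le htm.2 hm2, htN ⟨htm.1, ?_⟩⟩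
    have := htm.2
    linarith
  choose t ht0 ht1 ht2 N hNm hN0 hN using ht
  have hlenH : ∀ (s : Bool) (z : P2) (A : Set P2), μH[1] (toPl '' (ln s z ∩ A)) = len s z A := hh
  have hNN0 : volume (⋃ k, N k) = 0 := measure_iUnion_null hN0
  obtain ⟨N', hN'sub, hN'1, hN'2⟩ := hsel (⋃ k, N k)
    {S : Set P2 | ∃ (k : ℕ) (s : Bool) (z : P2), z.1 ∈ Icc (-1:ℝ) 1 ∧ S = ln s z ∧
      len s z E₁ = ENNReal.ofReal (t k)} (MeasurableSet.iUnion hNm) (by
    rintro s z hz ⟨k, s', z', hz', hS, hlen⟩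
    have h1 : len s z E₁ = ENNReal.ofReal (t k) := by
      rw [← hlenH s z E₁, hS, hlenH s' z' E₁, hlen]
    refine (hN k s z hz h1).trans (measure_mono ?_)
    intro x hx
    exact mem_iUnion.2 ⟨k, hx⟩)
  have hN'0 : volume N' = 0 := measure_mono_null hN'sub hNN0
  have hvolE : volume (toPl '' (E₁ ∪ N')) = volume E₁ := by
    rw [hvol]
    apply le_antisymm
    · exact (measure_union_le _ _).trans (by rw [hN'0, add_zero])
    · exact measure_mono subset_union_left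
  refine ⟨toPl '' (E₁ ∪ N'), ?_, ?_, ?_, ?_⟩
  · rw [image_union]
    refine (hmeas E₁ hE₁m).nullMeasurableSet.union ?_
    apply NullMeasurableSet.of_null
    rw [hvol, hN'0]
  · rw [hvolE]; exact hE₁pos
  · rw [hvolE]; exact hE₁fin
  · intro δ hδ
    obtain ⟨k, hk⟩ := exists_nat_one_div_lt hδ
    refine ⟨t k, ht0 k, (ht2 k).trans hk, ?_⟩
    intro θ p hθ heq
    obtain ⟨s, z, hz, hset⟩ := hl θ p hθ
    rw [hset, ← image_inter hbij.injective, hlenH] at heq
    by_cases hB : ln s z ∈ {S : Set P2 | ∃ (k : ℕ) (s : Bool) (z : P2), z.1 ∈ Icc (-1:ℝ) 1 ∧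
      S = ln s z ∧ len s z E₁ = ENNReal.ofReal (t k)}
    · have h1 := hN'1 s z hz hB
      have h2 : (1 / 2 : ℝ≥0∞) ≤ len s z (E₁ ∪ N') := by
        unfold len
        calc (1 / 2 : ℝ≥0∞) ≤ volume {x : ℝ | pt s z x ∈ N'} := h1
          _ ≤ volume {x : ℝ | pt s z x ∈ E₁ ∪ N'} := measure_mono (fun x hx => Or.inr hx)
          _ = 1 * volume {x : ℝ | pt s z x ∈ E₁ ∪ N'} := (one_mul _).symm
          _ ≤ _ := by
            gcongr
            rw [← ENNReal.ofReal_one]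
            apply ENNReal.ofReal_le_ofReal
            rw [Real.le_sqrt' one_pos]
            nlinarith [sq_nonneg z.1]
      rw [heq] at h2
      have h3 : ENNReal.ofReal (t k) < 1 / 2 := by
        have : (1 / 2 : ℝ≥0∞) = ENNReal.ofReal (1 / 2) := by
          rw [ENNReal.ofReal_div_of_pos two_pos]
          simp
        rw [this]
        exact (ENNReal.ofReal_lt_ofReal_iff (by norm_num)).2 (ht1 k)
      exact absurd h2 (not_le.2 h3)
    · have h1 := hN'2 s z hz hB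
      apply hB
      refine ⟨k, s, z, hz, rfl, ?_⟩
      rw [← heq]
      unfold len
      congr 1
      apply le_antisymm
      · exact measure_mono (fun x hx => Or.inl hx)
      · calc volume {x : ℝ | pt s z x ∈ E₁ ∪ N'} ≤
            volume ({x : ℝ | pt s z x ∈ E₁} ∪ {x : ℝ | pt s z x ∈ N'}) :=
              measure_mono (fun x hx => hx)
          _ ≤ _ := measure_union_le _ _
          _ = _ := by rw [h1, add_zero]

end Pool.Agent.T6.H18.CR.FI
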