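import Pool.Agent.T6.H18.CR.Stm

set_option autoImplicit false
open MeasureTheory Set Filter Topology
open scoped ENNReal NNReal Real

namespace Pool.Agent.T6.H18.CR.GA

open Pool.Agent.T6.H18.CR

/-! ### charts -/

lemma TT_pos (j : ℕ) : 10 ≤ TT j := by
  unfold TT
  have : (1:ℝ) ≤ 4 ^ j := one_le_pow₀ (by norm_num)
  linarith

lemma TT_lt {j j' : ℕ} (h : j < j') : 4 * TT j ≤ TT j' := by
  unfold TT
  have h1 : (4:ℝ) ^ (j + 1) ≤ 4 ^ j' := pow_le_pow_right₀ (by norm_num) h
  rw [pow_succ] at h1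
  linarith

lemma cm_ci (j : ℕ) (p : P2) : cm j (ci j p) = p := by
  unfold cm ci
  by_cases h : par j = true
  · simp [h]
  · simp [h]

lemma ci_cm (j : ℕ) (p : P2) : ci j (cm j p) = p := by
  unfold cm ci
  by_cases h : par j = true
  · simp [h]
  · simp [h]

lemma continuous_cm (j : ℕ) : Continuous (cm j) := by
  unfold cm
  by_cases h : par j = true
  · simp only [h, if_true]
    fun_prop
  · simp only [h, Bool.false_eq_true, if_false]
    fun_prop

lemma continuous_ci (j : ℕ) : Continuous (ci j) := by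
  unfold ci
  by_cases h : par j = true
  · simp only [h, if_true]
    fun_prop
  · simp only [h, Bool.false_eq_true, if_false]
    fun_prop

lemma preimage_cm_eq (j : ℕ) (E : Set P2) : cm j ⁻¹' E = ci j '' E := by
  ext p
  constructor
  · intro hp
    exact ⟨cm j p, hp, ci_cm j p⟩
  · rintro ⟨r, hr, rfl⟩
    simpa [cm_ci] using hr

lemma preimage_ci_eq (j : ℕ) (E : Set P2) : ci j ⁻¹' E = cm j '' E := by
  ext p
  constructor
  · intro hp
    exact ⟨ci j p, hp, cm_ci j p⟩
  · rintro ⟨r, hr, rfl⟩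
    simpa [ci_cm] using hr

lemma bdd_image {f : P2 → P2} (hf : Continuous f) {E : Set P2} (hE : Bornology.IsBounded E) :
    Bornology.IsBounded (f '' E) := by
  have h1 : IsCompact (f '' closure E) := (hE.isCompact_closure).image hf
  exact h1.isBounded.subset (image_mono subset_closure)

lemma col_mono {a b : ℝ} (h : a ≤ b) : col a ⊆ col b := by
  rintro x ⟨k, hk, h1, h2⟩
  exact ⟨k, hk, h1, by linarith⟩

lemma col_Ioo {a : ℝ} (h : a ≤ 1 / 40) : col a ⊆ Ioo (0:ℝ) 1 := by
  rintro x ⟨k, hk, h1, h2⟩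
  have hk' : (k:ℝ) ≤ 9 := by
    have : k ≤ 9 := by omega
    exact_mod_cast this
  have hk0 : (0:ℝ) ≤ k := Nat.cast_nonneg k
  constructor
  · linarith
  · linarith

/-- a piece made in the chart `j` stays away from the columns of the chart `j'` -/
lemma other {j j' : ℕ} (hne : j' ≠ j) (p : P2) (h1 : (ci j p).1 ∈ Ioo (0:ℝ) 1)
    (h2 : |(ci j p).2| ≤ bt j + 2) (h3 : (ci j' p).1 ∈ Ioo (0:ℝ) 1) :
    bt j' + 2 < |(ci j' p).2| := by
  have hj := TT_pos j
  have hj' := TT_pos j'
  obtain ⟨x, y⟩ := p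
  have h2' := abs_le.1 h2
  unfold bt at h2' ⊢
  rcases lt_or_gt_of_ne hne with hlt | hlt
  · -- j' < j
    have h4 := TT_lt hlt
    by_cases a : par j = true <;> by_cases b : par j' = true
    · exfalso
      simp only [ci, a, b, if_true] at h1 h2' h3
      obtain ⟨h11, h12⟩ := h1
      obtain ⟨h31, h32⟩ := h3
      linarith
    · simp only [ci, a, b, if_true] at h1 h2' h3 ⊢
      obtain ⟨h11, h12⟩ := h1
      refine lt_of_lt_of_le ?_ (le_abs_self _)
      simp only [Bool.false_eq_true, if_false]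
      linarith
    · simp only [ci, a, b, if_true] at h1 h2' h3 ⊢
      simp only [Bool.false_eq_true, if_false] at h1 h2' h3
      obtain ⟨h11, h12⟩ := h1
      refine lt_of_lt_of_le ?_ (le_abs_self _)
      linarith
    · exfalso
      simp only [ci, a, b] at h1 h2' h3
      simp only [Bool.false_eq_true, if_false] at h1 h2' h3
      obtain ⟨h11, h12⟩ := h1
      obtain ⟨h31, h32⟩ := h3
      linarith
  · -- j < j'
    exfalso
    have h4 := TT_lt hlt
    by_cases a : par j = true <;> by_cases b : par j' = true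
    · simp only [ci, a, b, if_true] at h1 h2' h3
      obtain ⟨h11, h12⟩ := h1
      obtain ⟨h31, h32⟩ := h3
      linarith
    · simp only [ci, a, b, if_true] at h1 h2' h3
      simp only [Bool.false_eq_true, if_false] at h1 h2' h3
      obtain ⟨h11, h12⟩ := h1
      obtain ⟨h31, h32⟩ := h3
      linarith
    · simp only [ci, a, b, if_true] at h1 h2' h3
      simp only [Bool.false_eq_true, if_false] at h1 h2' h3
      obtain ⟨h11, h12⟩ := h1
      obtain ⟨h31, h32⟩ := h3
      linarith
    · simp only [ci, a, b] at h1 h2' h3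
      simp only [Bool.false_eq_true, if_false] at h1 h2' h3
      obtain ⟨h11, h12⟩ := h1
      obtain ⟨h31, h32⟩ := h3
      linarith

/-! ### states -/

/-- state of the iteration -/
structure State where
  E : Set P2
  z : ℕ → ℝ
  θ : ℝ
  poly : Poly E
  bdd : Bornology.IsBounded E
  zpos : ∀ j, 0 < z j
  zle : ∀ j, z j ≤ 1 / 40
  θpos : 0 < θ
  θle : θ ≤ 1
  free : ∀ j, ∀ p ∈ E, (ci j p).1 ∈ col (z j) → bt j + 2 < |(ci j p).2|

/-- the size of the pieces at stage `i` -/
noncomputable def eps (θ : ℝ) (i : ℕ) : ℝ := θ * (1 / 2) ^ i / (2 * bt (jj i) + 4)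

lemma bt_pos (j : ℕ) : 20 ≤ bt j := by
  have := TT_pos j
  unfold bt
  linarith

lemma eps_pos {θ : ℝ} (h : 0 < θ) (i : ℕ) : 0 < eps θ i := by
  have := bt_pos (jj i)
  unfold eps
  positivity

lemma eps_mul (θ : ℝ) (i : ℕ) : eps θ i * (2 * bt (jj i) + 4) = θ * (1 / 2) ^ i := by
  have := bt_pos (jj i)
  unfold eps
  field_simp

lemma E0_bdd : Bornology.IsBounded E0 := by
  unfold E0
  exact (isCompact_Icc.prod isCompact_Icc).isBounded

/-- the first state -/
noncomputable def init (hops : StmPolyOps) : State where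
  E := E0
  z := fun _ => 1 / 40
  θ := 1
  poly := hops.2.2.2.1
  bdd := E0_bdd
  zpos := fun _ => by norm_num
  zle := fun _ => le_refl _
  θpos := one_pos
  θle := le_refl _
  free := by
    intro j p hp hc
    exfalso
    have h1 := col_Ioo (le_refl _) hc
    have h2 := TT_pos j
    obtain ⟨x, y⟩ := p
    obtain ⟨⟨hx0, hx1⟩, ⟨hy0, hy1⟩⟩ := hp
    simp only at hx0 hx1 hy0 hy1
    by_cases a : par j = true
    · simp only [ci, a, if_true] at h1
      linarith [h1.1]
    · simp only [ci, a] at h1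
      simp only [Bool.false_eq_true, if_false] at h1
      linarith [h1.1]

/-- what one step gives -/
structure StepRel (S S' : State) (i : ℕ) (W : Set P2) (J : Set ℝ) (U : Set P3) (η : ℝ) :
    Prop where
  measW : MeasurableSet W
  measJ : MeasurableSet J
  inJ : ∀ p ∈ W, (ci (jj i) p).1 ∈ J ∧ |(ci (jj i) p).2| ≤ bt (jj i) + 2
  Jsub : J ⊆ Icc 0 1
  volJ : volume J ≤ ENNReal.ofReal (eps S.θ i)
  ηpos : 0 < η
  openU : IsOpen U
  volU : volume U ≤ ENNReal.ofReal (eps S.θ i)
  E_eq : S'.E = S.E ∪ W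
  disj : Disjoint S.E W
  Jcol : J ⊆ col (S.z (jj i))
  Jdis : Disjoint J (col (S'.z (jj i)))
  zdec : ∀ j, S'.z j ≤ S.z j
  θdec : S'.θ ≤ S.θ
  θη : S'.θ ≤ η
  cover : ∀ z ∈ Icc (-1:ℝ) 1 ×ˢ Icc (-(bt (jj i))) (bt (jj i)), ∀ t ∈ Ioo (0:ℝ) 1,
    |Fr (cm (jj i) ⁻¹' (S.E ∪ W)) z - t| ≤ η →
      1 / 2 ≤ volume {x : ℝ | x ∈ Icc (0:ℝ) 1 ∧ (t, x, q x z) ∈ U}

lemma step (hst : StmStage) (hops : StmPolyOps) (S : State) (i : ℕ) :
    ∃ (S' : State) (W : Set P2) (J : Set ℝ) (U : Set P3) (η : ℝ), StepRel S S' i W J U η := by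
  set j := jj i with hj
  have hbt := bt_pos j
  obtain ⟨hmeas, hunion, -, -, hcm, hci⟩ := hops
  have hpoly : Poly (cm j ⁻¹' S.E) := hcm j _ S.poly
  have hbdd : Bornology.IsBounded (cm j ⁻¹' S.E) := by
    rw [preimage_cm_eq]
    exact bdd_image (continuous_ci j) S.bdd
  have hfree : ∀ p ∈ cm j ⁻¹' S.E, p.1 ∈ col (S.z j) → bt j + 2 < |p.2| := by
    intro p hp hc
    have := S.free j (cm j p) hp
    rw [ci_cm] at this
    exact this hc
  obtain ⟨W', J, U, ζ', η, hW'p, hW', hJm, hJc, hζ0, hζ1, hJd, hJv, hη, hU, hUv, hcov⟩ :=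
    hst (cm j ⁻¹' S.E) (bt j) (S.z j) (eps S.θ i) hpoly hbdd (by linarith) (S.zpos j) (S.zle j)
      (eps_pos S.θpos i) hfree
  have hWp : Poly (ci j ⁻¹' W') := hci j _ hW'p
  have hJI : J ⊆ Ioo (0:ℝ) 1 := hJc.trans (col_Ioo (S.zle j))
  have hinJ : ∀ p ∈ ci j ⁻¹' W', (ci j p).1 ∈ J ∧ |(ci j p).2| ≤ bt j + 2 := by
    intro p hp
    exact hW' _ hp
  have hW'b : Bornology.IsBounded W' := by
    refine (isCompact_Icc.prod isCompact_Icc : IsCompact
      (Icc (0:ℝ) 1 ×ˢ Icc (-(bt j + 2)) (bt j + 2))).isBounded.subset ?_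
    intro p hp
    have h1 := hW' p hp
    have h2 := hJI h1.1
    exact ⟨⟨h2.1.le, h2.2.le⟩, abs_le.1 h1.2⟩
  refine ⟨{ E := S.E ∪ ci j ⁻¹' W'
            z := Function.update S.z j ζ'
            θ := min S.θ η
            poly := hunion _ _ S.poly hWp
            bdd := ?_
            zpos := ?_
            zle := ?_
            θpos := lt_min S.θpos hη
            θle := (min_le_left _ _).trans S.θle
            free := ?_ }, ci j ⁻¹' W', J, U, η, ?_⟩
  · refine S.bdd.union ?_
    rw [preimage_ci_eq]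
    exact bdd_image (continuous_cm j) hW'b
  · intro j'
    by_cases h : j' = j
    · rw [h, Function.update_self]
      exact hζ0
    · rw [Function.update_of_ne h]
      exact S.zpos j'
  · intro j'
    by_cases h : j' = j
    · rw [h, Function.update_self]
      exact hζ1.le.trans (S.zle j)
    · rw [Function.update_of_ne h]
      exact S.zle j'
  · intro j' p hp hc
    by_cases h : j' = j
    · rw [h, Function.update_self] at hc
      rw [h]
      rcases hp with hp | hp
      · exact S.free j p hp (col_mono hζ1.le hc)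
      · exact absurd hc (Set.disjoint_left.1 hJd (hinJ p hp).1)
    · rw [Function.update_of_ne h] at hc
      rcases hp with hp | hp
      · exact S.free j' p hp hc
      · exact other h p (hJI (hinJ p hp).1) (hinJ p hp).2 (col_Ioo (S.zle j') hc)
  · refine ⟨hmeas _ hWp, hJm, hinJ, ?_, hJv, hη, hU, hUv, rfl, ?_, hJc, ?_, ?_, min_le_left _ _,
      min_le_right _ _, ?_⟩
    · exact hJI.trans Ioo_subset_Icc_self
    · rw [Set.disjoint_left]
      intro p hp hpW
      have h1 := hinJ p hpW
      have h2 := S.free j p hp (hJc h1.1)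
      linarith [h1.2]
    · show Disjoint J (col (Function.update S.z j ζ' j))
      rw [Function.update_self]
      exact hJd
    · intro j'
      show Function.update S.z j ζ' j' ≤ S.z j'
      by_cases h : j' = j
      · rw [h, Function.update_self]
        exact hζ1.le
      · rw [Function.update_of_ne h]
    · intro z hz t ht hF
      refine hcov z hz t ht ?_
      have h3 : cm j ⁻¹' (S.E ∪ ci j ⁻¹' W') = cm j ⁻¹' S.E ∪ W' := by
        rw [preimage_union]
        congr 1
        ext p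
        simp [ci_cm]
      rw [← h3]
      exact hF

/-- GA. the iteration of the stage proposition -/
theorem ga (hst : StmStage) (hops : StmPolyOps) : StmIter := by
  choose S' W J U η hrel using step hst hops
  let Sq : ℕ → State := fun n => Nat.rec (init hops) (fun n S => S' S n) n
  have hS0 : Sq 0 = init hops := rfl
  have hSs : ∀ n, Sq (n + 1) = S' (Sq n) n := fun n => rfl
  have hR : ∀ n, StepRel (Sq n) (Sq (n + 1)) n (W (Sq n) n) (J (Sq n) n) (U (Sq n) n)
      (η (Sq n) n) := fun n => by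
    rw [hSs]
    exact hrel (Sq n) n
  have hθ : ∀ n m, n ≤ m → (Sq m).θ ≤ (Sq n).θ := by
    intro n m hnm
    induction m, hnm using Nat.le_induction with
    | base => exact le_refl _
    | succ m _ ih => exact (hR m).θdec.trans ih
  have hz : ∀ n m, n ≤ m → ∀ j, (Sq m).z j ≤ (Sq n).z j := by
    intro n m hnm j
    induction m, hnm using Nat.le_induction with
    | base => exact le_refl _
    | succ m _ ih => exact ((hR m).zdec j).trans ih
  have hE : ∀ n, Ei (fun n => W (Sq n) n) n = (Sq n).E := by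
    intro n
    induction n with
    | zero =>
      rw [hS0]
      simp [Ei, init]
    | succ n ih =>
      rw [(hR n).E_eq, ← ih]
      unfold Ei
      rw [Finset.range_add_one, Finset.set_biUnion_insert, union_assoc, union_comm (W (Sq n) n)]
  have key : ∀ i i', i < i' → jj i = jj i' → Disjoint (J (Sq i) i) (J (Sq i') i') := by
    intro i i' hlt hjj
    refine Set.disjoint_of_subset_right ?_ (hR i).Jdis
    refine ((hR i').Jcol).trans ?_
    rw [← hjj]
    exact col_mono (hz (i + 1) i' hlt _)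
  refine ⟨fun n => W (Sq n) n, fun n => J (Sq n) n, fun n => eps (Sq n).θ n,
    fun n => η (Sq n) n, fun n => U (Sq n) n, ?_⟩
  refine ⟨fun i => (hR i).measW, fun i => (hR i).measJ, fun i => (hR i).inJ,
    fun i => (hR i).Jsub, fun i => (hR i).volJ, ?_, fun i => eps_pos (Sq i).θpos i,
    fun i => (hR i).ηpos, ?_, ?_, fun i => (hR i).openU, fun i => (hR i).volU, ?_, ?_⟩
  · intro i i' hne hjj
    rcases lt_or_gt_of_ne hne with h | h
    · exact key i i' h hjj
    · exact (key i' i h hjj.symm).symm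
  · intro i
    show eps (Sq i).θ i * (2 * bt (jj i) + 4) ≤ (1 / 2) ^ i
    rw [eps_mul]
    have h1 := (Sq i).θle
    have h2 : (0:ℝ) < (1 / 2) ^ i := by positivity
    nlinarith
  · intro i i' hlt
    show eps (Sq i').θ i' ≤ (1 / 2) ^ i' * η (Sq i) i
    have h1 : (Sq i').θ ≤ η (Sq i) i := (hθ (i + 1) i' hlt).trans (hR i).θη
    have h2 : (0:ℝ) < (1 / 2) ^ i' := by positivity
    have h3 := eps_mul (Sq i').θ i'
    have h4 := eps_pos (Sq i').θpos i'
    have h5 := bt_pos (jj i')
    have h6 : eps (Sq i').θ i' ≤ (Sq i').θ * (1 / 2) ^ i' := by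
      rw [← h3]
      nlinarith
    calc eps (Sq i').θ i' ≤ (Sq i').θ * (1 / 2) ^ i' := h6
      _ ≤ η (Sq i) i * (1 / 2) ^ i' := by gcongr
      _ = (1 / 2) ^ i' * η (Sq i) i := mul_comm _ _
  · intro i
    rw [hE]
    exact (hR i).disj
  · intro i z hz' t ht hF
    refine (hR i).cover z hz' t ht ?_
    rw [hE, (hR i).E_eq] at hF
    exact hF

end Pool.Agent.T6.H18.CR.GA
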