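import Pool.Agent.T6.H18.CR.Stm

set_option autoImplicit false
open MeasureTheory Set Filter Topology
open scoped ENNReal NNReal Real

namespace Pool.Agent.T6.H18.CR.L

theorem l1 : StmLimsup := by
  intro U hU hsum
  have h1 : ∀ n, volume (U n) = ∫⁻ t : ℝ, volume (Prod.mk t ⁻¹' U n) := by
    intro n
    rw [Measure.volume_eq_prod, Measure.prod_apply (hU n)]
  have hmeas : ∀ n, Measurable fun t : ℝ => volume (Prod.mk t ⁻¹' U n) := fun n =>
    measurable_measure_prodMk_left (hU n)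
  have h2 : ∑' n, volume (U n) = ∫⁻ t : ℝ, ∑' n, volume (Prod.mk t ⁻¹' U n) := by
    rw [lintegral_tsum (fun n => (hmeas n).aemeasurable)]
    exact tsum_congr h1
  rw [h2] at hsum
  have h3 : ∀ᵐ t : ℝ, ∑' n, volume (Prod.mk t ⁻¹' U n) < ⊤ :=
    ae_lt_top (Measurable.tsum hmeas) hsum
  filter_upwards [h3] with t ht
  have hV : ∀ n, MeasurableSet (Prod.mk t ⁻¹' U n) := fun n =>
    measurable_prodMk_left (hU n)
  refine ⟨limsup (fun n => Prod.mk t ⁻¹' U n) atTop, MeasurableSet.measurableSet_limsup hV,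
    measure_limsup_atTop_eq_zero ht.ne, ?_⟩
  intro z hz
  set S : ℕ → Set ℝ := fun n => {x : ℝ | x ∈ Icc (0:ℝ) 1 ∧ (t, x, q x z) ∈ U n} with hS
  have hSm : ∀ n, MeasurableSet (S n) := by
    intro n
    have hm : Measurable fun x : ℝ => ((t, x, q x z) : P3) := by
      unfold q; fun_prop
    exact (measurableSet_Icc : MeasurableSet (Icc (0:ℝ) 1)).inter (hm (hU n))
  set T : ℕ → Set ℝ := fun m => ⋃ n ≥ m, S n with hT
  have hTm : ∀ m, MeasurableSet (T m) := fun m =>
    MeasurableSet.iUnion fun n => MeasurableSet.iUnion fun _ => hSm n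
  have hanti : Antitone T := by
    intro a b hab x hx
    simp only [hT, mem_iUnion] at hx ⊢
    obtain ⟨n, hn, hx⟩ := hx
    exact ⟨n, le_trans hab hn, hx⟩
  have hfin : ∃ m, volume (T m) ≠ ⊤ := by
    refine ⟨0, ?_⟩
    have : T 0 ⊆ Icc (0:ℝ) 1 := by
      intro x hx
      simp only [hT, mem_iUnion] at hx
      obtain ⟨n, hn, hx⟩ := hx
      exact hx.1
    exact ((measure_mono this).trans_lt (by simp)).ne
  have htend := tendsto_measure_iInter_atTop (μ := volume) (fun m => (hTm m).nullMeasurableSet)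
    hanti hfin
  have hhalf : ∀ m, 1 / 2 ≤ volume (T m) := by
    intro m
    obtain ⟨n, hn, hx⟩ := Filter.frequently_atTop.1 hz m
    refine hx.trans (measure_mono ?_)
    intro x hx
    simp only [hT, mem_iUnion]
    exact ⟨n, hn, hx⟩
  have hge : 1 / 2 ≤ volume (⋂ m, T m) := ge_of_tendsto' htend hhalf
  refine hge.trans (measure_mono ?_)
  intro x hx
  rw [mem_iInter] at hx
  have hfreq : ∀ m, ∃ n ≥ m, x ∈ S n := by
    intro m
    have := hx m
    simp only [hT, mem_iUnion] at this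
    obtain ⟨n, hn, h⟩ := this
    exact ⟨n, hn, h⟩
  refine ⟨?_, ?_⟩
  · obtain ⟨n, -, h⟩ := hfreq 0
    exact h.1
  · rw [Filter.mem_limsup_iff_frequently_mem]
    rw [Filter.frequently_atTop]
    intro m
    obtain ⟨n, hn, h⟩ := hfreq m
    exact ⟨n, hn, h.2⟩

end Pool.Agent.T6.H18.CR.L
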