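import Pool.Agent.T6.H18.CR.Stm

set_option autoImplicit false
open MeasureTheory Set Filter Topology
open scoped ENNReal NNReal Real

namespace Pool.Agent.T6.H18.CR.P1

/-- the section, as a set -/
def Sc (E : Set P2) (R : ℝ) (z : P2) : Set ℝ := {x : ℝ | x ∈ Icc (-R) R ∧ (x, q x z) ∈ E}

theorem half_est (w w' : P2) (R ρ : ℝ) (hR : 0 < R) (hρ : 0 < ρ)
    (hw : ρ ≤ max |w.1| |w.2|) :
    volume {x : ℝ | x ∈ Icc (-R) R ∧ |w.1 * x + w.2| ≤ (R + 1) * dist w w'} ≤
      ENNReal.ofReal ((4 * (R + 1) ^ 2 / ρ + 4 * R * (R + 1) / ρ) * dist w w') := by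
  set d := dist w w' with hd
  have hd0 : 0 ≤ d := dist_nonneg
  by_cases hc : ρ / (2 * (R + 1)) ≤ |w.1|
  · have hw1 : 0 < |w.1| := lt_of_lt_of_le (by positivity) hc
    have hsub : {x : ℝ | x ∈ Icc (-R) R ∧ |w.1 * x + w.2| ≤ (R + 1) * d} ⊆
        Metric.closedBall (-(w.2 / w.1)) ((R + 1) * d / |w.1|) := by
      intro x hx
      rw [Metric.mem_closedBall, Real.dist_eq, le_div_iff₀ hw1, ← abs_mul]
      have hne : w.1 ≠ 0 := by
        intro h0
        rw [h0, abs_zero] at hw1
        exact lt_irrefl _ hw1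
      have : (x - -(w.2 / w.1)) * w.1 = w.1 * x + w.2 := by
        field_simp
        ring
      rw [this]
      exact hx.2
    refine (measure_mono hsub).trans ?_
    rw [Real.volume_closedBall]
    apply ENNReal.ofReal_le_ofReal
    have h1 : (R + 1) * d / |w.1| ≤ (R + 1) * d / (ρ / (2 * (R + 1))) := by
      gcongr
    have h2 : (R + 1) * d / (ρ / (2 * (R + 1))) = 2 * (R + 1) ^ 2 / ρ * d := by
      field_simp
    have h3 : 0 ≤ 4 * R * (R + 1) / ρ * d := by positivity
    have h4 : (4 * (R + 1) ^ 2 / ρ + 4 * R * (R + 1) / ρ) * d =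
      2 * (2 * (R + 1) ^ 2 / ρ * d) + 4 * R * (R + 1) / ρ * d := by ring
    rw [h4]
    linarith
  · push Not at hc
    have hw2 : ρ ≤ |w.2| := by
      rcases le_max_iff.1 hw with h | h
      · exfalso
        have : ρ / (2 * (R + 1)) ≤ ρ := by
          apply div_le_self hρ.le
          linarith
        linarith
      · exact h
    by_cases he : ρ / 2 ≤ (R + 1) * d
    · have hsub : {x : ℝ | x ∈ Icc (-R) R ∧ |w.1 * x + w.2| ≤ (R + 1) * d} ⊆ Icc (-R) R :=
        fun x hx => hx.1
      refine (measure_mono hsub).trans ?_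
      rw [Real.volume_Icc]
      apply ENNReal.ofReal_le_ofReal
      have h1 : 1 ≤ 2 * (R + 1) * d / ρ := by
        rw [le_div_iff₀ hρ]
        linarith
      have h2 : 0 ≤ 4 * (R + 1) ^ 2 / ρ * d := by positivity
      have h3 : (4 * (R + 1) ^ 2 / ρ + 4 * R * (R + 1) / ρ) * d =
        4 * (R + 1) ^ 2 / ρ * d + 2 * R * (2 * (R + 1) * d / ρ) := by ring
      rw [h3]
      have h4 : 2 * R * 1 ≤ 2 * R * (2 * (R + 1) * d / ρ) := by gcongr
      linarith
    · push Not at he
      have hemp : {x : ℝ | x ∈ Icc (-R) R ∧ |w.1 * x + w.2| ≤ (R + 1) * d} = ∅ := by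
        ext x
        simp only [mem_ofPred_eq, mem_empty_iff_false, iff_false, not_and, not_le]
        intro hx
        have hx' : |x| ≤ R := abs_le.2 ⟨hx.1, hx.2⟩
        have h1 : |w.1 * x| ≤ ρ / 2 := by
          rw [abs_mul]
          calc |w.1| * |x| ≤ ρ / (2 * (R + 1)) * R := by
                apply mul_le_mul hc.le hx' (abs_nonneg _) (by positivity)
            _ ≤ ρ / 2 := by
                rw [div_mul_eq_mul_div, div_le_div_iff₀ (by positivity) (by norm_num)]
                nlinarith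
        have h2 : |w.2| ≤ |w.1 * x + w.2| + |w.1 * x| := by
          have := abs_sub (w.1 * x + w.2) (w.1 * x)
          simpa using this
        linarith
      rw [hemp]
      simp

theorem p1 : StmPolyLip := by
  intro E hE
  induction hE with
  | half a b c =>
    intro R hR
    by_cases hb : b = 0
    · refine ⟨∅, fun ρ hρ => ⟨0, le_refl _, ?_⟩⟩
      intro z z' _ _
      subst hb
      simp
    · refine ⟨{(-a / b, c / b)}, fun ρ hρ =>
        ⟨4 * (R + 1) ^ 2 / ρ + 4 * R * (R + 1) / ρ, by positivity, ?_⟩⟩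
      intro z z' hz hz'
      have hz1 := hz (-a / b, c / b) (by simp)
      set w : P2 := z - (-a / b, c / b) with hw
      set w' : P2 := z' - (-a / b, c / b) with hw'
      have hdist : dist w w' = dist z z' := by
        rw [hw, hw']
        simp
      have hmax : ρ ≤ max |w.1| |w.2| := by
        rw [dist_eq_norm] at hz1
        exact hz1
      have hsub : symmDiff {x : ℝ | x ∈ Icc (-R) R ∧ (x, q x z) ∈ {p : P2 | a * p.1 + b * p.2 ≤ c}}
          {x : ℝ | x ∈ Icc (-R) R ∧ (x, q x z') ∈ {p : P2 | a * p.1 + b * p.2 ≤ c}} ⊆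
          {x : ℝ | x ∈ Icc (-R) R ∧ |w.1 * x + w.2| ≤ (R + 1) * dist w w'} := by
        intro x hx
        have hw1 : z.1 = w.1 - a / b := by rw [hw]; simp; ring
        have hw2 : z.2 = w.2 + c / b := by rw [hw]; simp
        have hw1' : z'.1 = w'.1 - a / b := by rw [hw']; simp; ring
        have hw2' : z'.2 = w'.2 + c / b := by rw [hw']; simp
        have e1 : a * x + b * q x z = b * (w.1 * x + w.2) + c := by
          unfold q
          rw [hw1, hw2]
          field_simp
          ring
        have e2 : a * x + b * q x z' = b * (w'.1 * x + w'.2) + c := by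
          unfold q
          rw [hw1', hw2']
          field_simp
          ring
        have hxI : x ∈ Icc (-R) R := by
          rcases hx with h | h
          · exact h.1.1
          · exact h.1.1
        refine ⟨hxI, ?_⟩
        have hx' : |x| ≤ R := abs_le.2 ⟨hxI.1, hxI.2⟩
        have h1 : |w.1 - w'.1| ≤ dist w w' := by
          rw [← Real.dist_eq, Prod.dist_eq]
          exact le_max_left _ _
        have h2 : |w.2 - w'.2| ≤ dist w w' := by
          rw [← Real.dist_eq, Prod.dist_eq]
          exact le_max_right _ _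
        have h3 : |(w.1 * x + w.2) - (w'.1 * x + w'.2)| ≤ (R + 1) * dist w w' := by
          have e3 : (w.1 * x + w.2) - (w'.1 * x + w'.2) = (w.1 - w'.1) * x + (w.2 - w'.2) := by
            ring
          rw [e3]
          refine (abs_add_le _ _).trans ?_
          rw [abs_mul]
          have : |w.1 - w'.1| * |x| ≤ dist w w' * R :=
            mul_le_mul h1 hx' (abs_nonneg _) dist_nonneg
          linarith
        -- signs differ
        have hs : (b * (w.1 * x + w.2) ≤ 0 ∧ 0 < b * (w'.1 * x + w'.2)) ∨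
            (b * (w'.1 * x + w'.2) ≤ 0 ∧ 0 < b * (w.1 * x + w.2)) := by
          rcases hx with h | h
          · left
            have ha := h.1.2
            have hb' : ¬ (a * x + b * q x z' ≤ c) := fun hh => h.2 ⟨hxI, hh⟩
            simp only [mem_ofPred_eq] at ha
            rw [e1] at ha
            rw [e2] at hb'
            constructor <;> linarith
          · right
            have ha := h.1.2
            have hb' : ¬ (a * x + b * q x z ≤ c) := fun hh => h.2 ⟨hxI, hh⟩
            simp only [mem_ofPred_eq] at ha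
            rw [e2] at ha
            rw [e1] at hb'
            constructor <;> linarith
        refine le_trans ?_ h3
        have hbp : 0 < |b| := abs_pos.2 hb
        have h4 : |b| * |w.1 * x + w.2| ≤ |b| * |(w.1 * x + w.2) - (w'.1 * x + w'.2)| := by
          rw [← abs_mul, ← abs_mul, mul_sub]
          rcases hs with ⟨ha, hb'⟩ | ⟨ha, hb'⟩
          · rw [abs_of_nonpos ha, abs_of_nonpos (by linarith)]
            linarith
          · rw [abs_of_pos hb', abs_of_pos (by linarith)]
            linarith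
        exact le_of_mul_le_mul_left h4 hbp
      refine (measure_mono hsub).trans ?_
      rw [← hdist]
      exact half_est w w' R ρ hR hρ hmax
  | compl hE ih =>
    rename_i E'
    intro R hR
    obtain ⟨F, hF⟩ := ih R hR
    refine ⟨F, fun ρ hρ => ?_⟩
    obtain ⟨C, hC, h⟩ := hF ρ hρ
    refine ⟨C, hC, fun z z' hz hz' => ?_⟩
    refine le_trans (measure_mono ?_) (h z z' hz hz')
    intro x hx
    rcases hx with ⟨⟨h1, h2⟩, h3⟩ | ⟨⟨h1, h2⟩, h3⟩
    · right
      refine ⟨⟨h1, ?_⟩, fun h4 => h2 h4.2⟩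
      by_contra h5
      exact h3 ⟨h1, h5⟩
    · left
      refine ⟨⟨h1, ?_⟩, fun h4 => h2 h4.2⟩
      by_contra h5
      exact h3 ⟨h1, h5⟩
  | inter hE hE' ih1 ih2 =>
    rename_i E1 E2
    intro R hR
    obtain ⟨F1, hF1⟩ := ih1 R hR
    obtain ⟨F2, hF2⟩ := ih2 R hR
    classical
    refine ⟨F1 ∪ F2, fun ρ hρ => ?_⟩
    obtain ⟨C1, hC1, h1⟩ := hF1 ρ hρ
    obtain ⟨C2, hC2, h2⟩ := hF2 ρ hρ
    refine ⟨C1 + C2, by positivity, fun z z' hz hz' => ?_⟩
    have i1 := h1 z z' (fun p hp => hz p (Finset.mem_union_left _ hp))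
      (fun p hp => hz' p (Finset.mem_union_left _ hp))
    have i2 := h2 z z' (fun p hp => hz p (Finset.mem_union_right _ hp))
      (fun p hp => hz' p (Finset.mem_union_right _ hp))
    rw [add_mul, ENNReal.ofReal_add (by positivity) (by positivity)]
    refine le_trans (measure_mono ?_) ((measure_union_le _ _).trans (add_le_add i1 i2))
    intro x hx
    rcases hx with ⟨⟨h3, h4⟩, h5⟩ | ⟨⟨h3, h4⟩, h5⟩
    · by_cases h6 : (x, q x z') ∈ E1
      · exact Or.inr (Or.inl ⟨⟨h3, h4.2⟩, fun h7 => h5 ⟨h3, h6, h7.2⟩⟩)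
      · exact Or.inl (Or.inl ⟨⟨h3, h4.1⟩, fun h7 => h6 h7.2⟩)
    · by_cases h6 : (x, q x z) ∈ E1
      · exact Or.inr (Or.inr ⟨⟨h3, h4.2⟩, fun h7 => h5 ⟨h3, h6, h7.2⟩⟩)
      · exact Or.inl (Or.inr ⟨⟨h3, h4.1⟩, fun h7 => h6 h7.2⟩)

end Pool.Agent.T6.H18.CR.P1
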