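import Pool.Agent.T6.H18.CR.Stm

set_option autoImplicit false
open MeasureTheory Set Filter Topology
open scoped ENNReal NNReal Real

namespace Pool.Agent.T6.H18.CR.R

open Pool.Agent.T6.H18.CR

/-- recursive choice -/
theorem rec_choice (Q : ℕ → (ℕ → ℕ) → Prop)
    (hcongr : ∀ n s s', (∀ i ≤ n, s i = s' i) → Q n s → Q n s')
    (hex : ∀ n s, ∃ N, Q n (Function.update s n N)) : ∃ s, ∀ n, Q n s := by
  choose N hN using hex
  let S : ℕ → (ℕ → ℕ) := fun n => Nat.rec (fun _ => 0) (fun n s => Function.update s n (N n s)) n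
  have hS : ∀ n, S (n + 1) = Function.update (S n) n (N n (S n)) := fun n => rfl
  have hstab : ∀ i k, S (i + 1 + k) i = S (i + 1) i := by
    intro i k
    induction k with
    | zero => rfl
    | succ k ih =>
      rw [← Nat.add_assoc, hS (i + 1 + k), Function.update_of_ne (by omega), ih]
  refine ⟨fun n => S (n + 1) n, fun n => ?_⟩
  refine hcongr n (S (n + 1)) _ ?_ (by rw [hS]; exact hN n (S n))
  intro i hi
  obtain ⟨k, hk⟩ := Nat.exists_eq_add_of_le hi
  have := hstab i k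
  show S (n + 1) i = S (i + 1) i
  rw [hk, show i + k + 1 = i + 1 + k by omega]
  exact this

theorem fn_congr (f : P2 → ℝ) (u : ℕ → ℝ) (G : ℝ) (s s' : ℕ → ℕ) (n : ℕ)
    (h : ∀ i < n, s i = s' i) : fn f u G s n = fn f u G s' n := by
  funext z
  unfold fn
  congr 1
  refine Finset.sum_congr rfl (fun i hi => ?_)
  rw [h i (Finset.mem_range.1 hi)]

theorem Yn_congr (f : P2 → ℝ) (u : ℕ → ℝ) (G : ℝ) (s s' : ℕ → ℕ) (n : ℕ)
    (h : ∀ i < n, s i = s' i) (x : ℝ) (z : P2) : Yn f u G s n x z = Yn f u G s' n x z := by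
  unfold Yn
  congr 1
  refine Finset.sum_congr rfl (fun i hi => ?_)
  rw [h i (Finset.mem_range.1 hi)]

theorem Hit_congr (f : P2 → ℝ) (u : ℕ → ℝ) (G : ℝ) (s s' : ℕ → ℕ) (K : Set P2) (n : ℕ)
    (h : ∀ i < n, s i = s' i) : Hit f u G s K n = Hit f u G s' K n := by
  ext p
  unfold Hit
  constructor
  · rintro ⟨h1, h2, h3, h4⟩
    refine ⟨h1, h2, ?_, ?_⟩
    · rw [← Yn_congr f u G s s' n h]; exact h3
    · intro j hj
      rw [← Yn_congr f u G s s' j (fun i hi => h i (hi.trans hj))]; exact h4 j hj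
  · rintro ⟨h1, h2, h3, h4⟩
    refine ⟨h1, h2, ?_, ?_⟩
    · rw [Yn_congr f u G s s' n h]; exact h3
    · intro j hj
      rw [Yn_congr f u G s s' j (fun i hi => h i (hi.trans hj))]; exact h4 j hj

theorem Alv_congr (f : P2 → ℝ) (u : ℕ → ℝ) (G : ℝ) (s s' : ℕ → ℕ) (K : Set P2) (k : ℕ) (sg : ℝ)
    (n : ℕ) (h : ∀ i < n, s i = s' i) : Alv f u G s K k sg n = Alv f u G s' K k sg n := by
  ext z
  unfold Alv
  constructor
  · rintro ⟨h1, h2⟩
    refine ⟨h1, fun j hj => ?_⟩
    rw [← Yn_congr f u G s s' j (fun i hi => h i (lt_of_lt_of_le hi hj)),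
      ← Yn_congr f u G s s' j (fun i hi => h i (lt_of_lt_of_le hi hj))]
    exact h2 j hj
  · rintro ⟨h1, h2⟩
    refine ⟨h1, fun j hj => ?_⟩
    rw [Yn_congr f u G s s' j (fun i hi => h i (lt_of_lt_of_le hi hj)),
      Yn_congr f u G s s' j (fun i hi => h i (lt_of_lt_of_le hi hj))]
    exact h2 j hj

theorem StepOK_congr (f : P2 → ℝ) (u : ℕ → ℝ) (G : ℝ) (K : Set P2) (e : ℝ) (s s' : ℕ → ℕ) (n : ℕ)
    (h : ∀ i ≤ n, s i = s' i) (hs : StepOK f u G K e s n) : StepOK f u G K e s' n := by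
  have hn : s n = s' n := h n le_rfl
  have hlt : ∀ i < n, s i = s' i := fun i hi => h i hi.le
  refine ⟨by rw [← hn]; exact hs.small, ?_, ?_, ?_⟩
  · intro j hj
    rw [← fn_congr f u G s s' (n + 1) (fun i hi => h i (by omega)), ← fn_congr f u G s s' n hlt,
      ← Hit_congr f u G s s' K j (fun i hi => h i (by omega))]
    exact hs.usc j hj
  · intro k hk sg hsg
    rw [← Alv_congr f u G s s' K k sg n hlt, ← hn]
    exact hs.weak1 k hk sg hsg
  · intro k hk sg hsg
    rw [← Alv_congr f u G s s' K k sg n hlt, ← hn]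
    have h1 := hs.weak2 k hk sg hsg
    simp only [← Yn_congr f u G s s' n hlt]
    exact h1

/-! ### measurability and bounds -/

theorem Yn_split (f : P2 → ℝ) (u : ℕ → ℝ) (G : ℝ) (s : ℕ → ℕ) (n : ℕ) (x : ℝ) (z : P2) :
    Yn f u G s n x z = (fderiv ℝ f z (1, 0) - x * fderiv ℝ f z (0, 1)) +
      ∑ i ∈ Finset.range n, xi (u i) G (1 / ((s i : ℝ) + 1)) z * (u i - x) := by
  unfold Yn
  congr 1
  have h1 : ((1:ℝ), -x) = ((1:ℝ), (0:ℝ)) - x • ((0:ℝ), (1:ℝ)) := by
    ext <;> simp
  rw [h1, map_sub, map_smul, smul_eq_mul]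

theorem Yn_meas2 (hxi : StmXi) (f : P2 → ℝ) (u : ℕ → ℝ) (G : ℝ) (s : ℕ → ℕ) (hG : 0 < G)
    (hG' : G ≤ 1 / 16) (n : ℕ) : Measurable (fun p : P3 => Yn f u G s n p.1 p.2) := by
  have h : (fun p : P3 => Yn f u G s n p.1 p.2) = fun p : P3 =>
      (fderiv ℝ f p.2 (1, 0) - p.1 * fderiv ℝ f p.2 (0, 1)) +
      ∑ i ∈ Finset.range n, xi (u i) G (1 / ((s i : ℝ) + 1)) p.2 * (u i - p.1) := by
    funext p
    exact Yn_split f u G s n p.1 p.2
  rw [h]
  refine Measurable.add ?_ ?_
  · exact ((measurable_fderiv_apply_const ℝ f (1, 0)).comp measurable_snd).sub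
      (measurable_fst.mul ((measurable_fderiv_apply_const ℝ f (0, 1)).comp measurable_snd))
  · refine Finset.measurable_sum _ (fun i _ => ?_)
    exact (((hxi (u i) G (1 / ((s i : ℝ) + 1)) hG hG' (by positivity)).1).comp measurable_snd).mul
      (measurable_const.sub measurable_fst)

theorem Yn_meas (hxi : StmXi) (f : P2 → ℝ) (u : ℕ → ℝ) (G : ℝ) (s : ℕ → ℕ) (hG : 0 < G)
    (hG' : G ≤ 1 / 16) (n : ℕ) (x : ℝ) : Measurable (Yn f u G s n x) := by
  have h := (Yn_meas2 hxi f u G s hG hG' n).comp (measurable_prodMk_left (x := x))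
  exact h

theorem Yn_bound (hxi : StmXi) (f : P2 → ℝ) (L : ℝ≥0) (hf : LipschitzWith L f) (u : ℕ → ℝ) (G : ℝ)
    (s : ℕ → ℕ) (hG : 0 < G) (hG' : G ≤ 1 / 16) (hu : ∀ n, u n ∈ Icc (0:ℝ) 1)
    (x : ℝ) (hx : x ∈ Icc (0:ℝ) 1) (n : ℕ) (z : P2) : |Yn f u G s n x z| ≤ L + 2 * G * n := by
  have h0 : |fderiv ℝ f z (1, -x)| ≤ L := by
    have h1 : ‖fderiv ℝ f z‖ ≤ L := norm_fderiv_le_of_lipschitz ℝ hf
    have h2 : ‖((1:ℝ), -x)‖ ≤ 1 := by
      rw [Prod.norm_def]
      simp only [norm_one, norm_neg, Real.norm_eq_abs, sup_le_iff, le_refl, true_and]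
      rw [abs_of_nonneg hx.1]
      exact hx.2
    calc |fderiv ℝ f z (1, -x)| = ‖fderiv ℝ f z (1, -x)‖ := (Real.norm_eq_abs _).symm
      _ ≤ ‖fderiv ℝ f z‖ * ‖((1:ℝ), -x)‖ := ContinuousLinearMap.le_opNorm _ _
      _ ≤ L * 1 := by gcongr
      _ = L := mul_one _
  unfold Yn
  refine (abs_add_le _ _).trans (add_le_add h0 ?_)
  refine (Finset.abs_sum_le_sum_abs _ _).trans ?_
  calc ∑ i ∈ Finset.range n, |xi (u i) G (1 / ((s i : ℝ) + 1)) z * (u i - x)|
      ≤ ∑ i ∈ Finset.range n, 2 * G := by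
        refine Finset.sum_le_sum (fun i _ => ?_)
        rw [abs_mul]
        have h1 := ((hxi (u i) G (1 / ((s i : ℝ) + 1)) hG hG' (by positivity)).2 z).2
        have h2 : |u i - x| ≤ 1 := by
          have := hu i
          rw [abs_le]; constructor <;> linarith [this.1, this.2, hx.1, hx.2]
        calc |xi (u i) G (1 / ((s i : ℝ) + 1)) z| * |u i - x| ≤ (2 * G) * 1 := by
              gcongr
          _ = 2 * G := mul_one _
    _ = 2 * G * n := by rw [Finset.sum_const, Finset.card_range, nsmul_eq_mul]; ring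

theorem Hit_meas (hxi : StmXi) (f : P2 → ℝ) (u : ℕ → ℝ) (G : ℝ) (s : ℕ → ℕ) (K : Set P2)
    (hK : MeasurableSet K) (hG : 0 < G) (hG' : G ≤ 1 / 16) (n : ℕ) :
    MeasurableSet (Hit f u G s K n) := by
  have h : Hit f u G s K n = (Prod.fst ⁻¹' Icc (0:ℝ) 1) ∩ ((Prod.snd ⁻¹' K) ∩
      ({p : P3 | |Yn f u G s n p.1 p.2| ≤ 3 * G} ∩
      ⋂ j ∈ Finset.range n, {p : P3 | 3 * G < |Yn f u G s j p.1 p.2|})) := by
    ext p
    simp only [Hit, mem_inter_iff, mem_preimage, mem_iInter, Finset.mem_range]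
    rfl
  rw [h]
  refine (measurable_fst measurableSet_Icc).inter ((measurable_snd hK).inter
    (MeasurableSet.inter ?_ ?_))
  · exact measurableSet_le ((continuous_abs.measurable).comp (Yn_meas2 hxi f u G s hG hG' n))
      measurable_const
  · refine Finset.measurableSet_biInter _ (fun j _ => ?_)
    exact measurableSet_lt measurable_const
      ((continuous_abs.measurable).comp (Yn_meas2 hxi f u G s hG hG' j))

theorem Alv_meas (hxi : StmXi) (f : P2 → ℝ) (u : ℕ → ℝ) (G : ℝ) (s : ℕ → ℕ) (K : Set P2)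
    (hK : MeasurableSet K) (hG : 0 < G) (hG' : G ≤ 1 / 16) (k : ℕ) (sg : ℝ) (n : ℕ) :
    MeasurableSet (Alv f u G s K k sg n) := by
  have h : Alv f u G s K k sg n = K ∩
      ⋂ j ∈ Finset.range (n + 1), ({z | 3 * G < sg * Yn f u G s j ((k : ℝ) / 10) z} ∩
        {z | 3 * G < sg * Yn f u G s j (((k : ℝ) + 1) / 10) z}) := by
    ext z
    simp only [Alv, mem_inter_iff, mem_iInter, Finset.mem_range, Nat.lt_succ_iff]
    rfl
  rw [h]
  refine hK.inter (Finset.measurableSet_biInter _ (fun j _ => ?_))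
  exact (measurableSet_lt measurable_const ((Yn_meas hxi f u G s hG hG' j _).const_mul sg)).inter
    (measurableSet_lt measurable_const ((Yn_meas hxi f u G s hG hG' j _).const_mul sg))

theorem fn_lip (hlip : StmLip) (f : P2 → ℝ) (L : ℝ≥0) (hf : LipschitzWith L f) (u : ℕ → ℝ) (G : ℝ)
    (s : ℕ → ℕ) (hG : 0 < G) (hG' : G ≤ 1 / 16) (hu : ∀ n, u n ∈ Icc (0:ℝ) 1) (n : ℕ) :
    LipschitzWith (L + n) (fn f u G s n) := by
  induction n with
  | zero =>
    have : fn f u G s 0 = f := by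
      funext z; simp [fn]
    rw [this]
    simpa using hf
  | succ n ih =>
    have h1 : fn f u G s (n + 1) = fun z => fn f u G s n z + hh (u n) G (1 / ((s n : ℝ) + 1)) z := by
      funext z
      unfold fn
      rw [Finset.sum_range_succ]
      ring
    rw [h1]
    have hl : (0:ℝ) < 1 / ((s n : ℝ) + 1) := by positivity
    have hl1 : 1 / ((s n : ℝ) + 1) ≤ 1 := by
      rw [div_le_one (by positivity)]
      have : (0:ℝ) ≤ s n := Nat.cast_nonneg _
      linarith
    have h2 := hlip (u n) G _ (hu n).1 (hu n).2 hG hG' hl hl1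
    have h3 := ih.add h2
    have h4 : L + ((n + 1 : ℕ) : ℝ≥0) = L + n + 1 := by push_cast; ring
    rw [h4]
    exact h3

theorem r1 (hlam : StmLam) (hlip : StmLip) (hxi : StmXi) (hweak : StmWeak) (husc : StmUsc) :
    StmRec := by
  intro f L β G e K u hf hK hKs hG hG' he hu
  refine rec_choice (fun n s => StepOK f u G K e s n) (fun n s s' h => StepOK_congr f u G K e s s' n h)
    ?_
  intro n s
  have hKm := hK.measurableSet
  have hKfin : volume K ≠ ⊤ := hK.measure_lt_top.ne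
  have hupd : ∀ N : ℕ, ∀ i < n, Function.update s n N i = s i := by
    intro N i hi
    exact Function.update_of_ne (by omega) _ _
  -- eventually statements
  have hinv : Tendsto (fun N : ℕ => 1 / ((N : ℝ) + 1)) atTop (𝓝 0) :=
    tendsto_one_div_add_atTop_nhds_zero_nat
  have hE1 : ∀ᶠ N : ℕ in atTop, 1 / ((N : ℝ) + 1) < e := hinv.eventually_lt_const he
  have hE2 : ∀ᶠ N : ℕ in atTop, ∀ j ∈ Finset.range (n + 1),
      volume (Phi (fun z => fn f u G s n z + hh (u n) G (1 / ((N : ℝ) + 1)) z) '' Hit f u G s K j) ≤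
      volume (Phi (fn f u G s n) '' Hit f u G s K j) + ENNReal.ofReal e := by
    rw [Filter.eventually_all_finset]
    intro j _
    have hsub : Hit f u G s K j ⊆ Icc (0:ℝ) 1 ×ˢ (Icc (-1:ℝ) 1 ×ˢ Icc (-β) β) :=
      fun p hp => ⟨hp.1, hKs hp.2.1⟩
    obtain ⟨δ, hδ, hδ2⟩ := husc (fn f u G s n) (L + n) (L + n + 1) β (Hit f u G s K j) e
      (fn_lip hlip f L hf u G s hG hG' hu n) (Hit_meas hxi f u G s K hKm hG hG' j) hsub he
    have hδG : ∀ᶠ N : ℕ in atTop, 1 / ((N : ℝ) + 1) < δ / G :=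
      hinv.eventually_lt_const (by positivity)
    filter_upwards [hδG] with N hN
    have hl : (0:ℝ) < 1 / ((N : ℝ) + 1) := by positivity
    have hl1 : 1 / ((N : ℝ) + 1) ≤ 1 := by
      rw [div_le_one (by positivity)]
      have : (0:ℝ) ≤ N := Nat.cast_nonneg _
      linarith
    refine hδ2 _ ?_ ?_
    · exact (fn_lip hlip f L hf u G s hG hG' hu n).add
        (hlip (u n) G _ (hu n).1 (hu n).2 hG hG' hl hl1)
    · intro z
      have h1 := hlam (u n) G _ z hG hG' hl
      have h2 : fn f u G s n z + hh (u n) G (1 / ((N : ℝ) + 1)) z - fn f u G s n z =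
        hh (u n) G (1 / ((N : ℝ) + 1)) z := by ring
      rw [h2, abs_of_nonneg h1.2.2.1]
      refine h1.2.2.2.trans ?_
      rw [lt_div_iff₀ hG] at hN
      linarith
  have hE3 : ∀ sg : ℝ, ∀ᶠ N : ℕ in atTop, ∀ k ∈ Finset.range 10,
      |∫ z in Alv f u G s K k sg n, xi (u n) G (1 / ((N : ℝ) + 1)) z| ≤ e := by
    intro sg
    rw [Filter.eventually_all_finset]
    intro k _
    have hm := Alv_meas hxi f u G s K hKm hG hG' k sg n
    have hfin : volume (Alv f u G s K k sg n) ≠ ⊤ :=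
      ((measure_mono (fun z hz => hz.1)).trans_lt hK.measure_lt_top).ne
    have hint : Integrable ((Alv f u G s K k sg n).indicator (fun _ => (1:ℝ))) :=
      (integrable_indicator_iff hm).2 (integrableOn_const hfin)
    have h1 := hweak (u n) G _ (hu n).1 (hu n).2 hG hG' hint
    have h2 := (tendsto_zero_iff_abs_tendsto_zero _).1 h1
    have h3 := h2.eventually_le_const he
    filter_upwards [h3] with N hN
    have heq : ∫ z in Alv f u G s K k sg n, xi (u n) G (1 / ((N : ℝ) + 1)) z =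
        ∫ z, xi (u n) G (1 / ((N : ℝ) + 1)) z *
          (Alv f u G s K k sg n).indicator (fun _ => (1:ℝ)) z := by
      rw [← integral_indicator hm]
      congr 1
      funext z
      by_cases hz : z ∈ Alv f u G s K k sg n
      · simp [indicator_of_mem hz]
      · simp [indicator_of_notMem hz]
    rw [heq]
    exact hN
  have hE4 : ∀ sg : ℝ, ∀ᶠ N : ℕ in atTop, ∀ k ∈ Finset.range 10,
      |∫ z in Alv f u G s K k sg n, xi (u n) G (1 / ((N : ℝ) + 1)) z *
      ((u n - ((k : ℝ) + 1) / 10) * Yn f u G s n ((k : ℝ) / 10) z +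
        (u n - (k : ℝ) / 10) * Yn f u G s n (((k : ℝ) + 1) / 10) z)| ≤ e := by
    intro sg
    rw [Filter.eventually_all_finset]
    intro k hk
    have hm := Alv_meas hxi f u G s K hKm hG hG' k sg n
    have hfin : volume (Alv f u G s K k sg n) ≠ ⊤ :=
      ((measure_mono (fun z hz => hz.1)).trans_lt hK.measure_lt_top).ne
    have hk9 : (k : ℝ) ≤ 9 := by
      exact_mod_cast Nat.lt_succ_iff.1 (Finset.mem_range.1 hk)
    have hk0 : (0 : ℝ) ≤ k := Nat.cast_nonneg k
    have hx1 : (k : ℝ) / 10 ∈ Icc (0:ℝ) 1 := ⟨by positivity, by linarith⟩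
    have hx2 : ((k : ℝ) + 1) / 10 ∈ Icc (0:ℝ) 1 := ⟨by positivity, by linarith⟩
    have hint : Integrable ((Alv f u G s K k sg n).indicator (fun z =>
      ((u n - ((k : ℝ) + 1) / 10) * Yn f u G s n ((k : ℝ) / 10) z +
        (u n - (k : ℝ) / 10) * Yn f u G s n (((k : ℝ) + 1) / 10) z))) := by
      rw [integrable_indicator_iff hm]
      refine Measure.integrableOn_of_bounded (M := 2 * (L + 2 * G * n)) hfin ?_ ?_
      · exact (((Yn_meas hxi f u G s hG hG' n _).const_mul _).add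
          ((Yn_meas hxi f u G s hG hG' n _).const_mul _)).aestronglyMeasurable
      · filter_upwards with z
        rw [Real.norm_eq_abs]
        have b1 := Yn_bound hxi f L hf u G s hG hG' hu _ hx1 n z
        have b2 := Yn_bound hxi f L hf u G s hG hG' hu _ hx2 n z
        have c1 : |u n - ((k : ℝ) + 1) / 10| ≤ 1 := by
          have := hu n
          rw [abs_le]; constructor <;> linarith [this.1, this.2, hx2.1, hx2.2]
        have c2 : |u n - (k : ℝ) / 10| ≤ 1 := by
          have := hu n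
          rw [abs_le]; constructor <;> linarith [this.1, this.2, hx1.1, hx1.2]
        refine (abs_add_le _ _).trans ?_
        rw [abs_mul, abs_mul]
        have d1 : |u n - ((k : ℝ) + 1) / 10| * |Yn f u G s n ((k : ℝ) / 10) z| ≤
            1 * (L + 2 * G * n) := by gcongr
        have d2 : |u n - (k : ℝ) / 10| * |Yn f u G s n (((k : ℝ) + 1) / 10) z| ≤
            1 * (L + 2 * G * n) := by gcongr
        linarith
    have h1 := hweak (u n) G _ (hu n).1 (hu n).2 hG hG' hint
    have h2 := (tendsto_zero_iff_abs_tendsto_zero _).1 h1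
    have h3 := h2.eventually_le_const he
    filter_upwards [h3] with N hN
    have heq : ∫ z in Alv f u G s K k sg n, xi (u n) G (1 / ((N : ℝ) + 1)) z *
      ((u n - ((k : ℝ) + 1) / 10) * Yn f u G s n ((k : ℝ) / 10) z +
        (u n - (k : ℝ) / 10) * Yn f u G s n (((k : ℝ) + 1) / 10) z) =
        ∫ z, xi (u n) G (1 / ((N : ℝ) + 1)) z *
          (Alv f u G s K k sg n).indicator (fun z =>
      ((u n - ((k : ℝ) + 1) / 10) * Yn f u G s n ((k : ℝ) / 10) z +
        (u n - (k : ℝ) / 10) * Yn f u G s n (((k : ℝ) + 1) / 10) z)) z := by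
      rw [← integral_indicator hm]
      congr 1
      funext z
      by_cases hz : z ∈ Alv f u G s K k sg n
      · simp [indicator_of_mem hz]
      · simp [indicator_of_notMem hz]
    rw [heq]
    exact hN
  obtain ⟨N, h1, h2, h3, h3', h4, h4'⟩ := (hE1.and (hE2.and ((hE3 1).and ((hE3 (-1)).and
    ((hE4 1).and (hE4 (-1))))))).exists
  refine ⟨N, ?_⟩
  have hup : Function.update s n N n = N := Function.update_self _ _ _
  refine ⟨?_, ?_, ?_, ?_⟩
  · rw [hup]; exact h1
  · intro j hj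
    have e1 : fn f u G (Function.update s n N) (n + 1) =
        fun z => fn f u G s n z + hh (u n) G (1 / ((N : ℝ) + 1)) z := by
      funext z
      have : fn f u G (Function.update s n N) (n + 1) z = fn f u G (Function.update s n N) n z +
          hh (u n) G (1 / (((Function.update s n N n : ℕ) : ℝ) + 1)) z := by
        unfold fn
        rw [Finset.sum_range_succ]
        ring
      rw [this, hup, fn_congr f u G _ s n (hupd N)]
    rw [e1, fn_congr f u G _ s n (hupd N),
      Hit_congr f u G _ s K j (fun i hi => hupd N i (by omega))]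
    exact h2 j (Finset.mem_range.2 (by omega))
  · intro k hk sg hsg
    rw [hup, Alv_congr f u G _ s K k sg n (hupd N)]
    rcases hsg with h | h
    · rw [h]; exact h3 k (Finset.mem_range.2 hk)
    · rw [h]; exact h3' k (Finset.mem_range.2 hk)
  · intro k hk sg hsg
    rw [hup, Alv_congr f u G _ s K k sg n (hupd N)]
    simp only [Yn_congr f u G _ s n (hupd N)]
    rcases hsg with h | h
    · rw [h]; exact h4 k (Finset.mem_range.2 hk)
    · rw [h]; exact h4' k (Finset.mem_range.2 hk)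

end Pool.Agent.T6.H18.CR.R
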