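import Pool.Agent.T6.H18.CR.S1

set_option autoImplicit false
open MeasureTheory Set Filter Topology
open scoped ENNReal NNReal Real

namespace Pool.Agent.T6.H18.CR.S2

open Pool.Agent.T6.H18.CR.S1

/-- distance to the lattice `l ℤ` -/
noncomputable def D (l y : ℝ) : ℝ := |y - l * round (y / l)|

theorem D_le {l : ℝ} (hl : 0 < l) (y : ℝ) (k : ℤ) : D l y ≤ |y - l * k| := by
  have h := round_le (y / l) k
  have e : ∀ x : ℝ, |y - l * x| = l * |y / l - x| := by
    intro x
    rw [← abs_of_pos hl, ← abs_mul, abs_of_pos hl]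
    congr 1
    field_simp
  unfold D
  rw [e, e]
  exact mul_le_mul_of_nonneg_left h hl.le

theorem D_lip {l : ℝ} (hl : 0 < l) (y y' : ℝ) : |D l y - D l y'| ≤ |y - y'| := by
  have key : ∀ a b : ℝ, D l a ≤ |a - b| + D l b := by
    intro a b
    refine (D_le hl a (round (b / l))).trans ?_
    unfold D
    refine le_trans (le_of_eq ?_) (abs_add_le _ _)
    congr 1; ring
  rw [abs_le]
  have h1 := key y y'
  have h2 := key y' y
  rw [abs_sub_comm y' y] at h2
  constructor <;> linarith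

theorem lam_eq {u G l : ℝ} (hG : 0 < G) (hG' : G ≤ 1 / 16) (hl : 0 < l) (z : P2)
    (h0 : 0 ≤ lam u G l z) :
    lam u G l z = G * D l (u * cl z.1 + z.2 + cl z.1 * lam u G l z) := by
  obtain ⟨ha1, ha2⟩ := cl_mem z.1
  obtain ⟨hr1, hr2⟩ := rm_mem u l z hl
  obtain ⟨k1, k2, k3, k4⟩ := cG hG hG' ha1 ha2
  set s := lam u G l z with hs
  set r := rm u l z with hr
  set a := cl z.1 with ha
  obtain ⟨k0, hk0⟩ : ∃ k0 : ℤ, u * a + z.2 = r + l * k0 := by
    refine ⟨⌊(u * a + z.2) / l⌋, ?_⟩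
    rw [hr]; unfold rm; ring
  have hlam : s = min (G * r / (1 - a * G)) (G * (l - r) / (1 + a * G)) := rfl
  have h3 : s ≤ G * r / (1 - a * G) := hlam ▸ min_le_left _ _
  have h4 : s ≤ G * (l - r) / (1 + a * G) := hlam ▸ min_le_right _ _
  rw [le_div_iff₀ (by linarith)] at h3 h4
  have h5 : s ≤ G * (r + a * s) := by nlinarith
  have h6 : s ≤ G * (l - r - a * s) := by nlinarith
  have h7 : 0 ≤ r + a * s := by
    by_contra hcon; push Not at hcon; nlinarith
  have h8 : 0 ≤ l - r - a * s := by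
    by_contra hcon; push Not at hcon; nlinarith
  apply le_antisymm
  · unfold D
    set k := round ((u * a + z.2 + a * s) / l)
    have hval : u * a + z.2 + a * s - l * k = r + a * s - ((k : ℝ) - k0) * l := by
      rw [hk0]; ring
    rw [hval]
    rcases le_or_gt k k0 with hk | hk
    · have hk' : (k : ℝ) ≤ k0 := by exact_mod_cast hk
      have h9 : r + a * s ≤ |r + a * s - ((k : ℝ) - k0) * l| :=
        le_trans (by nlinarith) (le_abs_self _)
      exact h5.trans (mul_le_mul_of_nonneg_left h9 hG.le)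
    · have hk' : (k0 : ℝ) + 1 ≤ k := by exact_mod_cast hk
      have h9 : l - r - a * s ≤ |r + a * s - ((k : ℝ) - k0) * l| := by
        refine le_trans ?_ (neg_le_abs _)
        nlinarith
      exact h6.trans (mul_le_mul_of_nonneg_left h9 hG.le)
  · have hd1 : D l (u * a + z.2 + a * s) ≤ r + a * s := by
      refine (D_le hl _ k0).trans (le_of_eq ?_)
      rw [hk0, show r + l * (k0:ℝ) + a * s - l * k0 = r + a * s by ring, abs_of_nonneg h7]
    have hd2 : D l (u * a + z.2 + a * s) ≤ l - r - a * s := by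
      refine (D_le hl _ (k0 + 1)).trans (le_of_eq ?_)
      rw [hk0]
      push_cast
      rw [show r + l * (k0:ℝ) + a * s - l * (k0 + 1) = -(l - r - a * s) by ring, abs_neg,
        abs_of_nonneg h8]
    rcases min_choice (G * r / (1 - a * G)) (G * (l - r) / (1 + a * G)) with hm | hm
    · rw [hm, eq_div_iff (by linarith)] at hlam
      have h9 := mul_le_mul_of_nonneg_left hd1 hG.le
      nlinarith
    · rw [hm, eq_div_iff (by linarith)] at hlam
      have h9 := mul_le_mul_of_nonneg_left hd2 hG.le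
      nlinarith

theorem cl_lip (a b : ℝ) : |cl a - cl b| ≤ |a - b| := by
  have h := ((LipschitzWith.id.const_min (1:ℝ)).const_max (-1)).dist_le_mul a b
  simpa [Real.dist_eq, cl] using h

theorem sqrt_lip (c d : ℝ) : |√(1 + c ^ 2) - √(1 + d ^ 2)| ≤ |c - d| := by
  have h1 : |c| ≤ √(1 + c ^ 2) := by
    apply Real.le_sqrt_of_sq_le
    rw [sq_abs]; linarith
  have h2 : |d| ≤ √(1 + d ^ 2) := by
    apply Real.le_sqrt_of_sq_le
    rw [sq_abs]; linarith
  have h3 : 1 ≤ √(1 + c ^ 2) := by rw [Real.one_le_sqrt]; nlinarith [sq_nonneg c]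
  have h4 : 1 ≤ √(1 + d ^ 2) := by rw [Real.one_le_sqrt]; nlinarith [sq_nonneg d]
  have h5 : (√(1 + c ^ 2) - √(1 + d ^ 2)) * (√(1 + c ^ 2) + √(1 + d ^ 2)) = (c - d) * (c + d) := by
    have e1 := Real.sq_sqrt (show 0 ≤ 1 + c ^ 2 by positivity)
    have e2 := Real.sq_sqrt (show 0 ≤ 1 + d ^ 2 by positivity)
    nlinarith
  have h6 : |√(1 + c ^ 2) - √(1 + d ^ 2)| * (√(1 + c ^ 2) + √(1 + d ^ 2)) = |c - d| * |c + d| := by
    rw [← abs_mul, ← h5, abs_mul, abs_of_pos (show 0 < √(1 + c ^ 2) + √(1 + d ^ 2) by linarith)]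
  have h7 : |c + d| ≤ √(1 + c ^ 2) + √(1 + d ^ 2) := (abs_add_le c d).trans (add_le_add h1 h2)
  by_contra hcon
  push Not at hcon
  have h8 : |c - d| * |c + d| < |√(1 + c ^ 2) - √(1 + d ^ 2)| * (√(1 + c ^ 2) + √(1 + d ^ 2)) := by
    calc |c - d| * |c + d| ≤ |c - d| * (√(1 + c ^ 2) + √(1 + d ^ 2)) :=
          mul_le_mul_of_nonneg_left h7 (abs_nonneg _)
      _ < _ := mul_lt_mul_of_pos_right hcon (by linarith)
  linarith

theorem s2 (h1 : StmLam) : StmLip := by
  intro u G l hu hu' hG hG' hl hl'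
  refine LipschitzWith.of_dist_le_mul fun z z' => ?_
  obtain ⟨s0, s1, -, -⟩ := h1 u G l z hG hG' hl
  obtain ⟨t0, t1, -, -⟩ := h1 u G l z' hG hG' hl
  have e1 := lam_eq hG hG' hl z s0
  have e2 := lam_eq hG hG' hl z' t0
  obtain ⟨c1, c2⟩ := cl_mem z.1
  obtain ⟨d1, d2⟩ := cl_mem z'.1
  obtain ⟨p1, p2⟩ := sq_bd (cl z.1) c1 c2
  have hsl := sqrt_lip (cl z.1) (cl z'.1)
  have hcl := cl_lip z.1 z'.1
  have hd1 : |z.1 - z'.1| ≤ dist z z' := by
    rw [← Real.dist_eq]; exact (Prod.dist_eq (x := z) (y := z')) ▸ le_max_left _ _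
  have hd2 : |z.2 - z'.2| ≤ dist z z' := by
    rw [← Real.dist_eq]; exact (Prod.dist_eq (x := z) (y := z')) ▸ le_max_right _ _
  have hd0 : 0 ≤ dist z z' := dist_nonneg
  rw [NNReal.coe_one, one_mul, Real.dist_eq]
  unfold hh
  set s := lam u G l z with hs
  set t := lam u G l z' with ht
  set c := cl z.1
  set d := cl z'.1
  set δ := dist z z'
  have hs2 : s ≤ 1 / 32 := by nlinarith
  have ht2 : t ≤ 1 / 32 := by nlinarith
  have h2 : |s - t| ≤ G * ((2 + 1 / 32) * δ + |s - t|) := by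
    have h3 := D_lip hl (u * c + z.2 + c * s) (u * d + z'.2 + d * t)
    have h4 : |s - t| = G * |D l (u * c + z.2 + c * s) - D l (u * d + z'.2 + d * t)| := by
      have h5 : s - t = G * (D l (u * c + z.2 + c * s) - D l (u * d + z'.2 + d * t)) := by
        rw [mul_sub, ← e1, ← e2]
      rw [h5, abs_mul, abs_of_pos hG]
    rw [h4]
    refine mul_le_mul_of_nonneg_left (h3.trans ?_) hG.le
    rw [← h4]
    have e3 : u * c + z.2 + c * s - (u * d + z'.2 + d * t) =
        u * (c - d) + (z.2 - z'.2) + (c - d) * s + d * (s - t) := by ring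
    rw [e3]
    have a1 : |u * (c - d)| ≤ δ := by
      rw [abs_mul, abs_of_nonneg hu]
      calc u * |c - d| ≤ 1 * |c - d| := mul_le_mul_of_nonneg_right hu' (abs_nonneg _)
        _ ≤ δ := by rw [one_mul]; exact hcl.trans hd1
    have a2 : |(c - d) * s| ≤ 1 / 32 * δ := by
      rw [abs_mul, abs_of_nonneg s0, mul_comm]
      exact mul_le_mul hs2 (hcl.trans hd1) (abs_nonneg _) (by norm_num)
    have a3 : |d * (s - t)| ≤ |s - t| := by
      rw [abs_mul]
      calc |d| * |s - t| ≤ 1 * |s - t| :=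
            mul_le_mul_of_nonneg_right (abs_le.mpr ⟨d1, d2⟩) (abs_nonneg _)
        _ = |s - t| := one_mul _
    have b1 := abs_add_le (u * (c - d) + (z.2 - z'.2) + (c - d) * s) (d * (s - t))
    have b2 := abs_add_le (u * (c - d) + (z.2 - z'.2)) ((c - d) * s)
    have b3 := abs_add_le (u * (c - d)) (z.2 - z'.2)
    linarith
  have h5 : |s - t| ≤ 1 / 5 * δ := by nlinarith [abs_nonneg (s - t)]
  have e4 : √(1 + c ^ 2) * s - √(1 + d ^ 2) * t =
      √(1 + c ^ 2) * (s - t) + (√(1 + c ^ 2) - √(1 + d ^ 2)) * t := by ring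
  rw [e4]
  refine (abs_add_le _ _).trans ?_
  rw [abs_mul, abs_mul, abs_of_nonneg t0, abs_of_nonneg (zero_le_one.trans p1)]
  have h6 : √(1 + c ^ 2) * |s - t| ≤ 3 / 2 * (1 / 5 * δ) :=
    mul_le_mul p2 h5 (abs_nonneg _) (by norm_num)
  have h7 : |√(1 + c ^ 2) - √(1 + d ^ 2)| * t ≤ δ * (1 / 32) :=
    mul_le_mul (hsl.trans (hcl.trans hd1)) ht2 t0 hd0
  linarith

end Pool.Agent.T6.H18.CR.S2
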