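import Pool.Agent.T6.H18.CR.Stm

/-! Module SP: the stage proposition. -/

set_option autoImplicit false
open MeasureTheory Set Filter Topology
open scoped ENNReal NNReal Real

namespace Pool.Agent.T6.H18.CR.SP

theorem pair_cont (z : P2) : Continuous (fun x : ℝ => (x, q x z)) := by
  unfold q
  fun_prop

theorem sec_meas {E : Set P2} (hE : MeasurableSet E) (z : P2) :
    MeasurableSet {x : ℝ | (x, q x z) ∈ E} :=
  (pair_cont z).measurable hE

theorem toReal_diff {A B : Set ℝ} (h1 : volume A ≠ ⊤) (h2 : volume B ≠ ⊤) (c : ℝ) (hc : 0 ≤ c)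
    (h : volume (symmDiff A B) ≤ ENNReal.ofReal c) :
    |(volume A).toReal - (volume B).toReal| ≤ c := by
  have key : ∀ A B : Set ℝ, volume B ≠ ⊤ → volume (symmDiff A B) ≤ ENNReal.ofReal c →
      (volume A).toReal ≤ (volume B).toReal + c := by
    intro A B h2 h
    have h3 : volume A ≤ volume B + ENNReal.ofReal c := by
      have hsub : A ⊆ B ∪ symmDiff A B := by
        intro x hx
        by_cases hB : x ∈ B
        · exact Or.inl hB
        · exact Or.inr (Or.inl ⟨hx, hB⟩)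
      calc volume A ≤ volume (B ∪ symmDiff A B) := measure_mono hsub
        _ ≤ volume B + volume (symmDiff A B) := measure_union_le _ _
        _ ≤ _ := by gcongr
    have h4 := ENNReal.toReal_mono (ENNReal.add_ne_top.2 ⟨h2, ENNReal.ofReal_ne_top⟩) h3
    rwa [ENNReal.toReal_add h2 ENNReal.ofReal_ne_top, ENNReal.toReal_ofReal hc] at h4
  have k1 := key A B h2 h
  have k2 := key B A h1 (by rw [symmDiff_comm]; exact h)
  rw [abs_le]
  constructor <;> linarith

theorem sqrt_diff (a a' : ℝ) : |√(1 + a ^ 2) - √(1 + a' ^ 2)| ≤ |a - a'| := by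
  set s := √(1 + a ^ 2) with hs
  set s' := √(1 + a' ^ 2) with hs'
  have h1 : s ^ 2 = 1 + a ^ 2 := Real.sq_sqrt (by positivity)
  have h2 : s' ^ 2 = 1 + a' ^ 2 := Real.sq_sqrt (by positivity)
  have h3 : 0 < s := Real.sqrt_pos.2 (by positivity)
  have h4 : 0 < s' := Real.sqrt_pos.2 (by positivity)
  have h5 : |a| ≤ s := Real.abs_le_sqrt (by linarith [sq_nonneg a])
  have h6 : |a'| ≤ s' := Real.abs_le_sqrt (by linarith [sq_nonneg a'])
  have h7 : |s - s'| * (s + s') ≤ |a - a'| * (s + s') := by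
    calc |s - s'| * (s + s') = |s - s'| * |s + s'| := by rw [abs_of_pos (by linarith : 0 < s + s')]
      _ = |(s - s') * (s + s')| := (abs_mul _ _).symm
      _ = |(a - a') * (a + a')| := by
          congr 1
          ring_nf
          rw [h1, h2]
          ring
      _ = |a - a'| * |a + a'| := abs_mul _ _
      _ ≤ |a - a'| * (s + s') := by
          apply mul_le_mul_of_nonneg_left _ (abs_nonneg _)
          exact (abs_add_le a a').trans (add_le_add h5 h6)
  exact le_of_mul_le_mul_right h7 (by linarith)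

theorem sqrt_le_two {a : ℝ} (h : |a| ≤ 1) : √(1 + a ^ 2) ≤ 2 := by
  rw [Real.sqrt_le_left (by norm_num)]
  have := sq_le_one_iff_abs_le_one a |>.2 h
  linarith

theorem fr_lip {E : Set P2} (R : ℝ) (hR : 0 < R)
    (hb : ∀ p ∈ E, p.1 ∈ Icc (-R) R) (C : ℝ) (hC : 0 ≤ C) (K0 : Set P2)
    (hK0 : ∀ z ∈ K0, |z.1| ≤ 1)
    (h : ∀ z ∈ K0, ∀ z' ∈ K0, volume (symmDiff {x : ℝ | x ∈ Icc (-R) R ∧ (x, q x z) ∈ E}
        {x : ℝ | x ∈ Icc (-R) R ∧ (x, q x z') ∈ E}) ≤ ENNReal.ofReal (C * dist z z')) :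
    LipschitzOnWith (Real.toNNReal (2 * C + 2 * R)) (Fr E) K0 := by
  have hsec : ∀ z, {x : ℝ | (x, q x z) ∈ E} = {x : ℝ | x ∈ Icc (-R) R ∧ (x, q x z) ∈ E} := by
    intro z
    ext x
    exact ⟨fun hx => ⟨hb _ hx, hx⟩, fun hx => hx.2⟩
  have hvol : ∀ z, volume {x : ℝ | (x, q x z) ∈ E} ≤ ENNReal.ofReal (2 * R) := by
    intro z
    rw [hsec]
    calc volume {x : ℝ | x ∈ Icc (-R) R ∧ (x, q x z) ∈ E} ≤ volume (Icc (-R) R) :=
          measure_mono fun x hx => hx.1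
      _ = ENNReal.ofReal (2 * R) := by
          rw [Real.volume_Icc]
          congr 1
          ring
  have hfin : ∀ z, volume {x : ℝ | (x, q x z) ∈ E} ≠ ⊤ := fun z =>
    ((hvol z).trans_lt ENNReal.ofReal_lt_top).ne
  refine LipschitzOnWith.of_dist_le_mul fun z hz z' hz' => ?_
  rw [Real.coe_toNNReal _ (by positivity), Real.dist_eq]
  have hd : 0 ≤ dist z z' := dist_nonneg
  have h1 : |(volume {x : ℝ | (x, q x z) ∈ E}).toReal - (volume {x : ℝ | (x, q x z') ∈ E}).toReal| ≤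
      C * dist z z' := by
    apply toReal_diff (hfin z) (hfin z') _ (by positivity)
    rw [hsec z, hsec z']
    exact h z hz z' hz'
  have h2 : (volume {x : ℝ | (x, q x z') ∈ E}).toReal ≤ 2 * R := by
    have := ENNReal.toReal_mono ENNReal.ofReal_ne_top (hvol z')
    rwa [ENNReal.toReal_ofReal (by positivity)] at this
  have h3 : |z.1 - z'.1| ≤ dist z z' := by
    rw [Prod.dist_eq, ← Real.dist_eq]
    exact le_max_left _ _
  have h4 := sqrt_diff z.1 z'.1
  have h5 := sqrt_le_two (hK0 z hz)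
  have h6 : 0 ≤ √(1 + z.1 ^ 2) := Real.sqrt_nonneg _
  unfold Fr
  set A := (volume {x : ℝ | (x, q x z) ∈ E}).toReal
  set B := (volume {x : ℝ | (x, q x z') ∈ E}).toReal
  have hB : 0 ≤ B := ENNReal.toReal_nonneg
  calc |√(1 + z.1 ^ 2) * A - √(1 + z'.1 ^ 2) * B|
      = |√(1 + z.1 ^ 2) * (A - B) + (√(1 + z.1 ^ 2) - √(1 + z'.1 ^ 2)) * B| := by
        congr 1
        ring
    _ ≤ |√(1 + z.1 ^ 2) * (A - B)| + |(√(1 + z.1 ^ 2) - √(1 + z'.1 ^ 2)) * B| := abs_add_le _ _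
    _ = √(1 + z.1 ^ 2) * |A - B| + |√(1 + z.1 ^ 2) - √(1 + z'.1 ^ 2)| * B := by
        rw [abs_mul, abs_mul, abs_of_nonneg h6, abs_of_nonneg hB]
    _ ≤ 2 * (C * dist z z') + dist z z' * (2 * R) := by
        apply add_le_add
        · exact mul_le_mul h5 h1 (abs_nonneg _) (by norm_num)
        · exact mul_le_mul (h4.trans h3) h2 hB hd
    _ = (2 * C + 2 * R) * dist z z' := by ring

/-! ### the neighbourhoods of the exceptional lines -/

/-- the neighbourhood of a line -/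
def RG (p : P2) (ρ : ℝ) : Set P2 := regionBetween (fun x => q x p - 2 * ρ) (fun x => q x p + 2 * ρ)
  (Ioo (-1:ℝ) 2)

theorem RG_open (p : P2) (ρ : ℝ) : IsOpen (RG p ρ) := by
  have h : RG p ρ = {w : P2 | -1 < w.1} ∩ {w : P2 | w.1 < 2} ∩ ({w : P2 | q w.1 p - 2 * ρ < w.2} ∩
      {w : P2 | w.2 < q w.1 p + 2 * ρ}) := by
    ext w
    rfl
  rw [h]
  unfold q
  refine ((isOpen_lt continuous_const continuous_fst).inter
    (isOpen_lt continuous_fst continuous_const)).inter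
    ((isOpen_lt (by fun_prop) (by fun_prop)).inter (isOpen_lt (by fun_prop) (by fun_prop)))

theorem RG_vol (p : P2) (ρ : ℝ) (hρ : 0 < ρ) : volume (RG p ρ) = ENNReal.ofReal (12 * ρ) := by
  unfold RG
  have hm : ∀ c : ℝ, Measurable (fun x : ℝ => q x p + c) := by
    intro c
    unfold q
    fun_prop
  have h := volume_regionBetween_eq_lintegral' (μ := (volume : Measure ℝ))
    (f := fun x => q x p - 2 * ρ) (g := fun x => q x p + 2 * ρ) (s := Ioo (-1:ℝ) 2)
    (by simpa [sub_eq_add_neg] using hm (-(2 * ρ))) (hm _) measurableSet_Ioo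
  rw [← Measure.volume_eq_prod] at h
  rw [h]
  have h2 : ∀ y : ℝ, ((fun x => q x p + 2 * ρ) - fun x => q x p - 2 * ρ) y = 4 * ρ := by
    intro y
    simp only [Pi.sub_apply]
    ring
  simp only [h2]
  rw [setLIntegral_const, Real.volume_Ioo, ← ENNReal.ofReal_mul (by positivity)]
  congr 1
  ring

theorem UF_exists (F : Finset P2) (ρ : ℝ) (hρ : 0 < ρ) : ∃ U : Set P3, IsOpen U ∧
    volume U ≤ ENNReal.ofReal (36 * F.card * ρ) ∧
    ∀ p ∈ F, ∀ z : P2, dist z p < ρ → ∀ t ∈ Ioo (0:ℝ) 1, ∀ x ∈ Icc (0:ℝ) 1, (t, x, q x z) ∈ U := by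
  refine ⟨⋃ p ∈ F, Ioo (-1:ℝ) 2 ×ˢ RG p ρ, ?_, ?_, ?_⟩
  · exact isOpen_biUnion fun p _ => isOpen_Ioo.prod (RG_open p ρ)
  · calc volume (⋃ p ∈ F, Ioo (-1:ℝ) 2 ×ˢ RG p ρ) ≤ ∑ p ∈ F, volume (Ioo (-1:ℝ) 2 ×ˢ RG p ρ) :=
          measure_biUnion_finset_le _ _
      _ = ∑ _p ∈ F, ENNReal.ofReal (36 * ρ) := by
          refine Finset.sum_congr rfl fun p _ => ?_
          rw [Measure.volume_eq_prod, Measure.prod_prod, RG_vol p ρ hρ, Real.volume_Ioo,
            ← ENNReal.ofReal_mul (by norm_num)]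
          congr 1
          ring
      _ = ENNReal.ofReal (36 * F.card * ρ) := by
          rw [Finset.sum_const, nsmul_eq_mul, ← ENNReal.ofReal_natCast,
            ← ENNReal.ofReal_mul (by positivity)]
          congr 1
          ring
  · intro p hp z hz t ht x hx
    refine mem_iUnion₂.2 ⟨p, hp, ⟨by linarith [ht.1], by linarith [ht.2]⟩, ?_⟩
    have h1 : |z.1 - p.1| ≤ dist z p := by
      rw [Prod.dist_eq, ← Real.dist_eq]
      exact le_max_left _ _
    have h2 : |z.2 - p.2| ≤ dist z p := by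
      rw [Prod.dist_eq, ← Real.dist_eq]
      exact le_max_right _ _
    have h3 : |q x z - q x p| < 2 * ρ := by
      have e1 : q x z - q x p = x * (z.1 - p.1) + (z.2 - p.2) := by
        unfold q
        ring
      rw [e1]
      calc |x * (z.1 - p.1) + (z.2 - p.2)| ≤ |x * (z.1 - p.1)| + |z.2 - p.2| := abs_add_le _ _
        _ = x * |z.1 - p.1| + |z.2 - p.2| := by rw [abs_mul, abs_of_nonneg hx.1]
        _ ≤ 1 * dist z p + dist z p := by
            apply add_le_add _ h2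
            exact mul_le_mul hx.2 h1 (abs_nonneg _) (by norm_num)
        _ < 2 * ρ := by linarith
    rw [abs_lt] at h3
    refine ⟨⟨?_, ?_⟩, ?_, ?_⟩
    · show (-1:ℝ) < x
      linarith [hx.1]
    · show x < 2
      linarith [hx.2]
    · show q x p - 2 * ρ < q x z
      linarith [h3.1]
    · show q x z < q x p + 2 * ρ
      linarith [h3.2]

/-! ### the strips -/

theorem st_range {u G l Y : ℝ} (hG : 0 < G) (hl : 0 < l) {p : P2} (hp : p ∈ St u G l Y) :
    p.1 ∈ Icc u (u + G * l / 2) := by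
  obtain ⟨⟨h1, h2⟩, -⟩ := hp
  refine ⟨h1, ?_⟩
  have h3 := h2 (round (p.2 / l))
  have h4 : |p.2 / l - round (p.2 / l)| ≤ 1 / 2 := abs_sub_round _
  have h5 : |p.2 - (round (p.2 / l) : ℝ) * l| ≤ l / 2 := by
    have e : p.2 - (round (p.2 / l) : ℝ) * l = (p.2 / l - round (p.2 / l)) * l := by
      field_simp
    rw [e, abs_mul, abs_of_pos hl]
    nlinarith
  have h6 : G * |p.2 - (round (p.2 / l) : ℝ) * l| ≤ G * (l / 2) := by gcongr
  linarith

theorem st_sec (hsec : StmSec) (hlam : StmLam) {u G l β : ℝ} (hu0 : 0 ≤ u) (hu1 : u ≤ 1)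
    (hG : 0 < G) (hG1 : G ≤ 1 / 16) (hl : 0 < l) (hl1 : l ≤ 1) {z : P2}
    (hz : z ∈ Icc (-1:ℝ) 1 ×ˢ Icc (-β) β) :
    {x : ℝ | (x, q x z) ∈ St u G l (β + 2)} = Icc u (u + lam u G l z) := by
  have h1 := hsec u G l z hu0 hu1 hG hG1 hl hz.1
  obtain ⟨h2, h3, -, -⟩ := hlam u G l z hG hG1 hl
  ext x
  have h4 := Set.ext_iff.1 h1 x
  constructor
  · intro h
    exact h4.1 h.1
  · intro h
    refine ⟨h4.2 h, ?_⟩
    have hx0 : 0 ≤ x := hu0.trans h.1
    have hGl : G * l ≤ 1 / 16 * 1 := mul_le_mul hG1 hl1 hl.le (by norm_num)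
    have hx2 : x ≤ 2 := by
      have := h.2
      linarith
    have ha : |z.1| ≤ 1 := abs_le.2 hz.1
    have hb : |z.2| ≤ β := abs_le.2 hz.2
    show |q x z| ≤ β + 2
    unfold q
    calc |z.1 * x + z.2| ≤ |z.1 * x| + |z.2| := abs_add_le _ _
      _ = |z.1| * x + |z.2| := by rw [abs_mul, abs_of_nonneg hx0]
      _ ≤ 1 * x + β := by
          apply add_le_add _ hb
          exact mul_le_mul_of_nonneg_right ha hx0
      _ ≤ β + 2 := by linarith

theorem poly_iUnion (hops : StmPolyOps) (S : ℕ → Set P2) (hS : ∀ n, Poly (S n)) (m : ℕ) :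
    Poly (⋃ n ∈ Finset.range m, S n) := by
  induction m with
  | zero =>
    simpa using hops.2.2.1
  | succ m ih =>
    rw [Finset.range_add_one, Finset.set_biUnion_insert]
    exact hops.2.1 _ _ (hS m) ih

theorem hh_eq {u G l : ℝ} {z : P2} (hz : z.1 ∈ Icc (-1:ℝ) 1) :
    hh u G l z = √(1 + z.1 ^ 2) * lam u G l z := by
  have : cl z.1 = z.1 := by
    unfold cl
    rw [min_eq_right hz.2, max_eq_right hz.1]
  unfold hh
  rw [this]

/-- The section of the union. -/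
theorem fr_union (hsec : StmSec) (hlam : StmLam) {E : Set P2} (_hE : MeasurableSet E)
    (hEfin : ∀ z, volume {x : ℝ | (x, q x z) ∈ E} ≠ ⊤) {β G : ℝ}
    (hG : 0 < G) (hG1 : G ≤ 1 / 16) (u l : ℕ → ℝ) (m : ℕ) (hu : ∀ n, u n ∈ Icc (0:ℝ) 1)
    (hl : ∀ n, 0 < l n ∧ l n ≤ 1)
    (hdis : ∀ n < m, ∀ n' < m, n ≠ n' → Disjoint (Icc (u n) (u n + G * l n / 2))
      (Icc (u n') (u n' + G * l n' / 2)))
    (hEd : ∀ n < m, ∀ p ∈ E, p.1 ∈ Icc (u n) (u n + G * l n / 2) → β + 2 < |p.2|)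
    {z : P2} (hz : z ∈ Icc (-1:ℝ) 1 ×ˢ Icc (-β) β) :
    Fr (E ∪ ⋃ n ∈ Finset.range m, St (u n) G (l n) (β + 2)) z =
      Fr E z + ∑ n ∈ Finset.range m, hh (u n) G (l n) z := by
  have hS : ∀ n, {x : ℝ | (x, q x z) ∈ St (u n) G (l n) (β + 2)} =
      Icc (u n) (u n + lam (u n) G (l n) z) := fun n =>
    st_sec hsec hlam (hu n).1 (hu n).2 hG hG1 (hl n).1 (hl n).2 hz
  have hlam' : ∀ n, 0 ≤ lam (u n) G (l n) z ∧ lam (u n) G (l n) z ≤ G * l n / 2 := fun n =>
    ⟨(hlam (u n) G (l n) z hG hG1 (hl n).1).1, (hlam (u n) G (l n) z hG hG1 (hl n).1).2.1⟩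
  have hsub : ∀ n, {x : ℝ | (x, q x z) ∈ St (u n) G (l n) (β + 2)} ⊆
      Icc (u n) (u n + G * l n / 2) := by
    intro n
    rw [hS n]
    exact Icc_subset_Icc le_rfl (by linarith [(hlam' n).2])
  have hset : {x : ℝ | (x, q x z) ∈ E ∪ ⋃ n ∈ Finset.range m, St (u n) G (l n) (β + 2)} =
      {x : ℝ | (x, q x z) ∈ E} ∪
        ⋃ n ∈ Finset.range m, {x : ℝ | (x, q x z) ∈ St (u n) G (l n) (β + 2)} := by
    ext x
    simp only [mem_union, mem_iUnion, Set.mem_ofPred_eq]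
  have hmS : ∀ n, MeasurableSet {x : ℝ | (x, q x z) ∈ St (u n) G (l n) (β + 2)} := by
    intro n
    rw [hS n]
    exact measurableSet_Icc
  have hd1 : Disjoint {x : ℝ | (x, q x z) ∈ E}
      (⋃ n ∈ Finset.range m, {x : ℝ | (x, q x z) ∈ St (u n) G (l n) (β + 2)}) := by
    rw [Set.disjoint_left]
    intro x hx hx'
    obtain ⟨n, hn, hx''⟩ := mem_iUnion₂.1 hx'
    have h1 := hEd n (Finset.mem_range.1 hn) (x, q x z) hx (hsub n hx'')
    have h2 : |q x z| ≤ β + 2 := hx''.2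
    exact absurd h1 (not_lt.2 h2)
  have hv : volume (⋃ n ∈ Finset.range m, {x : ℝ | (x, q x z) ∈ St (u n) G (l n) (β + 2)}) =
      ∑ n ∈ Finset.range m, ENNReal.ofReal (lam (u n) G (l n) z) := by
    rw [measure_biUnion_finset]
    · refine Finset.sum_congr rfl fun n _ => ?_
      rw [hS n, Real.volume_Icc]
      congr 1
      ring
    · intro n hn n' hn' hne
      exact (hdis n (Finset.mem_range.1 hn) n' (Finset.mem_range.1 hn') hne).mono (hsub n) (hsub n')
    · intro n _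
      exact hmS n
  unfold Fr
  rw [hset, measure_union hd1 (Finset.measurableSet_biUnion _ fun n _ => hmS n), hv,
    ENNReal.toReal_add (hEfin z) (ENNReal.sum_ne_top.2 fun n _ => ENNReal.ofReal_ne_top),
    ENNReal.toReal_sum (fun n _ => ENNReal.ofReal_ne_top), mul_add, Finset.mul_sum]
  congr 1
  refine Finset.sum_congr rfl fun n _ => ?_
  rw [ENNReal.toReal_ofReal (hlam' n).1, hh_eq hz.1]

/-- A small number which separates everything. -/
theorem exists_sep (u : ℕ → ℝ) (m : ℕ) (ζ ε : ℝ) (hζ : 0 < ζ) (hε : 0 < ε) (k : ℕ → ℕ)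
    (hk : ∀ n < m, (2 * (k n : ℝ) + 1) / 20 < u n ∧ u n < (2 * (k n : ℝ) + 1) / 20 + ζ)
    (hne : ∀ n < m, ∀ n' < m, n ≠ n' → u n ≠ u n') :
    ∃ d : ℝ, 0 < d ∧ d < 1 ∧ d < ζ ∧ m * d ≤ ε ∧
      (∀ n < m, ∀ n' < m, n ≠ n' → d < |u n - u n'|) ∧
      (∀ n < m, (2 * (k n : ℝ) + 1) / 20 + d < u n ∧ u n + d < (2 * (k n : ℝ) + 1) / 20 + ζ) := by
  have hev : ∀ c : ℝ, 0 < c → ∀ᶠ d in 𝓝[>] (0:ℝ), d < c := fun c hc =>
    eventually_nhdsWithin_of_eventually_nhds (eventually_lt_nhds hc)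
  have h1 : ∀ᶠ d in 𝓝[>] (0:ℝ), ∀ n ∈ Finset.range m, ∀ n' ∈ Finset.range m, n ≠ n' →
      d < |u n - u n'| := by
    rw [Filter.eventually_all_finset]
    intro n hn
    rw [Filter.eventually_all_finset]
    intro n' hn'
    by_cases h : n = n'
    · exact Filter.Eventually.of_forall fun d h' => absurd h h'
    · refine (hev _ (abs_pos.2 (sub_ne_zero.2 (hne n (Finset.mem_range.1 hn) n'
        (Finset.mem_range.1 hn') h)))).mono fun d hd _ => hd
  have h2 : ∀ᶠ d in 𝓝[>] (0:ℝ), ∀ n ∈ Finset.range m,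
      d < u n - (2 * (k n : ℝ) + 1) / 20 ∧ d < (2 * (k n : ℝ) + 1) / 20 + ζ - u n := by
    rw [Filter.eventually_all_finset]
    intro n hn
    obtain ⟨a1, a2⟩ := hk n (Finset.mem_range.1 hn)
    exact (hev _ (by linarith)).and (hev _ (by linarith))
  have h3 : ∀ᶠ d in 𝓝[>] (0:ℝ), (0:ℝ) < d := eventually_mem_nhdsWithin
  obtain ⟨d, hd0, hd1, hd2, hd3, hd4, hd5⟩ := (h3.and ((hev 1 one_pos).and ((hev ζ hζ).and
    ((hev (ε / (m + 1)) (by positivity)).and (h1.and h2))))).exists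
  refine ⟨d, hd0, hd1, hd2, ?_, fun n hn n' hn' h => hd4 n (Finset.mem_range.2 hn) n'
    (Finset.mem_range.2 hn') h, fun n hn => ?_⟩
  · rw [lt_div_iff₀ (by positivity)] at hd3
    nlinarith
  · obtain ⟨a1, a2⟩ := hd5 n (Finset.mem_range.2 hn)
    constructor <;> linarith

theorem sp1 (hsec : StmSec) (hlam : StmLam) (hdini : StmDini) (has : StmAS) (hpl : StmPolyLip)
    (hops : StmPolyOps) (hst : StmStPoly) (hlip : StmLip) : StmStage := by
  intro E β ζ ε hE hEb hβ hζ hζ1 hε hfree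
  have hEm : MeasurableSet E := hops.1 E hE
  -- a bound for `E`
  obtain ⟨R, hR, hRE⟩ : ∃ R : ℝ, 0 < R ∧ ∀ p ∈ E, p.1 ∈ Icc (-R) R := by
    obtain ⟨C, hC⟩ := isBounded_iff_forall_norm_le.1 hEb
    refine ⟨max C 1, lt_of_lt_of_le one_pos (le_max_right _ _), fun p hp => ?_⟩
    rw [mem_Icc, ← abs_le]
    exact (norm_fst_le p).trans ((hC p hp).trans (le_max_left _ _))
  have hEfin : ∀ z, volume {x : ℝ | (x, q x z) ∈ E} ≠ ⊤ := by
    intro z
    have : volume {x : ℝ | (x, q x z) ∈ E} ≤ volume (Icc (-R) R) :=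
      measure_mono fun x hx => hRE _ hx
    exact (this.trans_lt (by rw [Real.volume_Icc]; exact ENNReal.ofReal_lt_top)).ne
  obtain ⟨F, hF⟩ := hpl E hE R hR
  set ρ : ℝ := ε / (72 * (F.card + 1)) with hρdef
  have hρ : 0 < ρ := by positivity
  obtain ⟨C, hC, hFC⟩ := hF ρ hρ
  obtain ⟨UF, hUFo, hUFv, hUF⟩ := UF_exists F ρ hρ
  set K : Set P2 := Icc (-1:ℝ) 1 ×ˢ Icc (-β) β with hK
  set K0 : Set P2 := K \ ⋃ p ∈ F, Metric.ball p ρ with hK0
  have hKc : IsCompact K := isCompact_Icc.prod isCompact_Icc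
  have hK0c : IsCompact K0 := hKc.diff (isOpen_biUnion fun p _ => Metric.isOpen_ball)
  have hK0K : K0 ⊆ K := Set.sdiff_subset
  have hK0d : ∀ z ∈ K0, ∀ p ∈ F, ρ ≤ dist z p := by
    intro z hz p hp
    by_contra hlt
    push Not at hlt
    exact hz.2 (mem_iUnion₂.2 ⟨p, hp, hlt⟩)
  -- the base function
  have hflip := fr_lip (E := E) R hR hRE C hC K0 (fun z hz => abs_le.2 (hK0K hz).1)
    (fun z hz z' hz' => hFC z z' (hK0d z hz) (hK0d z' hz'))
  obtain ⟨f, hfL, hfE⟩ := hflip.extend_real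
  obtain ⟨G, m, u, hG, hG1, hu, hucol, hune, hAS⟩ := has f _ β (ε / 2) ζ K0 hfL hK0c hβ hK0K
    (by positivity) hζ
  have hex : ∀ n, ∃ k : ℕ, n < m → k < 10 ∧ (2 * (k : ℝ) + 1) / 20 < u n ∧
      u n < (2 * (k : ℝ) + 1) / 20 + ζ := by
    intro n
    by_cases hn : n < m
    · obtain ⟨k, hk⟩ := hucol n hn
      exact ⟨k, fun _ => hk⟩
    · exact ⟨0, fun h => absurd h hn⟩
  choose k hk using hex
  obtain ⟨d, hd0, hd1, hdζ, hdm, hdu, hdk⟩ := exists_sep u m ζ ε hζ hε k (fun n hn => (hk n hn).2)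
    hune
  obtain ⟨s, hs, U0, hU0o, hU0v, hU0⟩ := hAS d hd0
  set l : ℕ → ℝ := fun n => 1 / ((s n : ℝ) + 1) with hl
  have hl01 : ∀ n, 0 < l n ∧ l n ≤ 1 := by
    intro n
    have : (0:ℝ) ≤ s n := Nat.cast_nonneg _
    refine ⟨by positivity, ?_⟩
    rw [hl]
    simp only
    rw [div_le_one (by positivity)]
    linarith
  have hGl : ∀ n < m, G * l n / 2 < d := by
    intro n hn
    have h1 : l n < d := hs n hn
    have h2 : G * l n ≤ 1 / 16 * l n := mul_le_mul_of_nonneg_right hG1 (hl01 n).1.le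
    linarith [(hl01 n).1]
  set W : Set P2 := ⋃ n ∈ Finset.range m, St (u n) G (l n) (β + 2) with hW
  set J : Set ℝ := ⋃ n ∈ Finset.range m, Icc (u n) (u n + G * l n / 2) with hJ
  have hJmem : ∀ x ∈ J, ∃ n < m, x ∈ Icc (u n) (u n + G * l n / 2) := by
    intro x hx
    obtain ⟨n, hn, hx'⟩ := mem_iUnion₂.1 hx
    exact ⟨n, Finset.mem_range.1 hn, hx'⟩
  have hJcol : J ⊆ col ζ := by
    intro x hx
    obtain ⟨n, hn, h1, h2⟩ := hJmem x hx
    obtain ⟨a1, a2⟩ := hdk n hn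
    have := hGl n hn
    exact ⟨k n, (hk n hn).1, by linarith, by linarith⟩
  have hWJ : ∀ p ∈ W, p.1 ∈ J ∧ |p.2| ≤ β + 2 := by
    intro p hp
    obtain ⟨n, hn, hp'⟩ := mem_iUnion₂.1 hp
    exact ⟨mem_iUnion₂.2 ⟨n, hn, st_range hG (hl01 n).1 hp'⟩, hp'.2⟩
  have hcont : Continuous (fn f u G s m) := by
    have h1 : Continuous fun z => f z + ∑ i ∈ Finset.range m, hh (u i) G (1 / ((s i : ℝ) + 1)) z :=
      hfL.continuous.add (continuous_finsetSum _ fun i _ =>
        (hlip (u i) G _ (hu i).1 (hu i).2 hG hG1 (hl01 i).1 (hl01 i).2).continuous)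
    exact h1
  obtain ⟨η, hη, hη'⟩ := hdini (fn f u G s m) K0 U0 hcont hK0c hU0o hU0
  refine ⟨W, J, U0 ∪ UF, d, η, ?_, hWJ, ?_, hJcol, hd0, hdζ, ?_, ?_, hη, hU0o.union hUFo, ?_, ?_⟩
  · exact poly_iUnion hops _ (fun n => hst (u n) G (l n) (β + 2) hG (hl01 n).1 (by linarith)) m
  · exact Finset.measurableSet_biUnion _ fun n _ => measurableSet_Icc
  · rw [Set.disjoint_left]
    intro x hx hx'
    obtain ⟨n, hn, h1, h2⟩ := hJmem x hx
    obtain ⟨k', hk', b1, b2⟩ := hx'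
    obtain ⟨a1, a2⟩ := hdk n hn
    have h3 := hGl n hn
    rcases lt_trichotomy (k n) k' with h | h | h
    · have : (k n : ℝ) + 1 ≤ k' := by exact_mod_cast h
      linarith
    · rw [← h] at b2
      linarith
    · have : (k' : ℝ) + 1 ≤ k n := by exact_mod_cast h
      linarith
  · calc volume J ≤ ∑ n ∈ Finset.range m, volume (Icc (u n) (u n + G * l n / 2)) :=
          measure_biUnion_finset_le _ _
      _ ≤ ∑ _n ∈ Finset.range m, ENNReal.ofReal d := by
          refine Finset.sum_le_sum fun n hn => ?_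
          rw [Real.volume_Icc]
          apply ENNReal.ofReal_le_ofReal
          linarith [hGl n (Finset.mem_range.1 hn)]
      _ = ENNReal.ofReal (m * d) := by
          rw [Finset.sum_const, Finset.card_range, nsmul_eq_mul, ← ENNReal.ofReal_natCast,
            ← ENNReal.ofReal_mul (by positivity)]
      _ ≤ ENNReal.ofReal ε := ENNReal.ofReal_le_ofReal hdm
  · calc volume (U0 ∪ UF) ≤ volume U0 + volume UF := measure_union_le _ _
      _ ≤ ENNReal.ofReal (ε / 2) + ENNReal.ofReal (36 * F.card * ρ) := add_le_add hU0v hUFv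
      _ = ENNReal.ofReal (ε / 2 + 36 * F.card * ρ) := by
          rw [← ENNReal.ofReal_add (by positivity) (by positivity)]
      _ ≤ ENNReal.ofReal ε := by
          apply ENNReal.ofReal_le_ofReal
          have h1 : 36 * (F.card : ℝ) * ρ ≤ ε / 2 := by
            rw [hρdef, mul_div_assoc', div_le_iff₀ (by positivity)]
            have : (0:ℝ) ≤ F.card := Nat.cast_nonneg _
            nlinarith
          linarith
  · intro z hz t ht hzt
    by_cases hzF : ∃ p ∈ F, dist z p < ρ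
    · obtain ⟨p, hp, hzp⟩ := hzF
      have h1 : {x : ℝ | x ∈ Icc (0:ℝ) 1 ∧ (t, x, q x z) ∈ U0 ∪ UF} = Icc (0:ℝ) 1 := by
        ext x
        exact ⟨fun h => h.1, fun h => ⟨h, Or.inr (hUF p hp z hzp t ht x h)⟩⟩
      rw [h1, Real.volume_Icc]
      norm_num
    · have hz0 : z ∈ K0 := by
        refine ⟨hz, fun h => hzF ?_⟩
        obtain ⟨p, hp, hzp⟩ := mem_iUnion₂.1 h
        exact ⟨p, hp, hzp⟩
      have hFr : Fr (E ∪ W) z = fn f u G s m z := by
        rw [hW, fr_union hsec hlam hEm hEfin hG hG1 u l m hu hl01 ?_ ?_ hz]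
        · unfold fn
          rw [hfE hz0]
        · intro n hn n' hn' hne
          rw [Set.disjoint_left]
          intro x hx hx'
          have h1 := hdu n hn n' hn' hne
          have h2 := hGl n hn
          have h3 := hGl n' hn'
          have h4 : |u n - u n'| < d := by
            rw [abs_lt]
            constructor
            · linarith [hx.1, hx.2, hx'.1, hx'.2]
            · linarith [hx.1, hx.2, hx'.1, hx'.2]
          linarith
        · intro n hn p hp hpn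
          exact hfree p hp (hJcol (mem_iUnion₂.2 ⟨n, Finset.mem_range.2 hn, hpn⟩))
      rw [hFr] at hzt
      refine (hη' z hz0 t hzt).trans (measure_mono ?_)
      intro x hx
      exact ⟨hx.1, Or.inl hx.2⟩

end Pool.Agent.T6.H18.CR.SP
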