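import Pool.Agent.T6.H18.CR.Stm

set_option autoImplicit false
open MeasureTheory Set Filter Topology
open scoped ENNReal NNReal Real

namespace Pool.Agent.T6.H18.CR.S1

theorem cl_mem (a : ℝ) : -1 ≤ cl a ∧ cl a ≤ 1 := by
  unfold cl
  exact ⟨le_max_left _ _, max_le (by norm_num) (min_le_left _ _)⟩

theorem cl_eq {a : ℝ} (ha : a ∈ Icc (-1:ℝ) 1) : cl a = a := by
  unfold cl
  rw [min_eq_right ha.2, max_eq_right ha.1]

theorem rm_mem (u l : ℝ) (z : P2) (hl : 0 < l) : 0 ≤ rm u l z ∧ rm u l z < l := by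
  unfold rm
  set v := u * cl z.1 + z.2
  have h1 := Int.floor_le (v / l)
  have h2 := Int.lt_floor_add_one (v / l)
  rw [le_div_iff₀ hl] at h1
  rw [div_lt_iff₀ hl] at h2
  constructor <;> nlinarith

theorem cG {c G : ℝ} (hG : 0 < G) (hG' : G ≤ 1 / 16) (h1 : -1 ≤ c) (h2 : c ≤ 1) :
    15 / 16 ≤ 1 - c * G ∧ 1 - c * G ≤ 17 / 16 ∧ 15 / 16 ≤ 1 + c * G ∧ 1 + c * G ≤ 17 / 16 := by
  refine ⟨?_, ?_, ?_, ?_⟩ <;> nlinarith

theorem sq_bd (c : ℝ) (h1 : -1 ≤ c) (h2 : c ≤ 1) :
    1 ≤ √(1 + c ^ 2) ∧ √(1 + c ^ 2) ≤ 3 / 2 := by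
  constructor
  · rw [Real.one_le_sqrt]; nlinarith [sq_nonneg c]
  · rw [Real.sqrt_le_left (by norm_num)]; nlinarith

theorem s1b : StmLam := by
  intro u G l z hG hG' hl
  obtain ⟨hc1, hc2⟩ := cl_mem z.1
  obtain ⟨hr1, hr2⟩ := rm_mem u l z hl
  obtain ⟨k1, k2, k3, k4⟩ := cG hG hG' hc1 hc2
  obtain ⟨s1, s2⟩ := sq_bd (cl z.1) hc1 hc2
  have hA : 0 ≤ G * rm u l z / (1 - cl z.1 * G) := div_nonneg (mul_nonneg hG.le (by linarith)) (by linarith)
  have hB : 0 ≤ G * (l - rm u l z) / (1 + cl z.1 * G) := div_nonneg (mul_nonneg hG.le (by linarith)) (by linarith)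
  have hlam0 : 0 ≤ lam u G l z := le_min hA hB
  have hlam1 : lam u G l z ≤ G * l / 2 := by
    by_contra hcon
    push Not at hcon
    have h1 : G * l / 2 < G * rm u l z / (1 - cl z.1 * G) := hcon.trans_le (min_le_left _ _)
    have h2 : G * l / 2 < G * (l - rm u l z) / (1 + cl z.1 * G) := hcon.trans_le (min_le_right _ _)
    rw [lt_div_iff₀ (by linarith)] at h1 h2
    nlinarith
  refine ⟨hlam0, hlam1, by unfold hh; positivity, ?_⟩
  unfold hh
  nlinarith [mul_le_mul_of_nonneg_right s2 hlam0]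

theorem measurable_cl : Measurable cl := by
  unfold cl
  fun_prop

theorem measurable_rm (u l : ℝ) : Measurable (rm u l) := by
  unfold rm
  have h1 : Measurable fun z : P2 => u * cl z.1 + z.2 :=
    ((measurable_cl.comp measurable_fst).const_mul u).add measurable_snd
  have h2 : Measurable fun z : P2 => ((⌊(u * cl z.1 + z.2) / l⌋ : ℤ) : ℝ) :=
    (measurable_from_top (f := fun n : ℤ => (n : ℝ))).comp
      (Int.measurable_floor.comp (h1.div_const l))
  exact h1.sub (h2.const_mul l)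

theorem s1c : StmXi := by
  intro u G l hG hG' hl
  have hc : Measurable fun z : P2 => cl z.1 := measurable_cl.comp measurable_fst
  have hs : Measurable fun z : P2 => √(1 + (cl z.1) ^ 2) :=
    ((hc.pow_const 2).const_add 1).sqrt
  constructor
  · unfold xi
    refine Measurable.ite ?_ ?_ ?_
    · exact measurableSet_lt ((measurable_rm u l).const_mul 2)
        (((hc.mul_const G).const_sub 1).mul_const l)
    · exact (hs.const_mul G).div ((hc.mul_const G).const_sub 1)
    · exact ((hs.const_mul G).div ((hc.mul_const G).const_add 1)).neg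
  · intro z
    obtain ⟨hc1, hc2⟩ := cl_mem z.1
    obtain ⟨k1, k2, k3, k4⟩ := cG hG hG' hc1 hc2
    obtain ⟨s1, s2⟩ := sq_bd (cl z.1) hc1 hc2
    have key : ∀ d : ℝ, 15 / 16 ≤ d → d ≤ 17 / 16 →
        G / 2 ≤ G * √(1 + (cl z.1) ^ 2) / d ∧ G * √(1 + (cl z.1) ^ 2) / d ≤ 2 * G := by
      intro d h1 h2
      constructor
      · rw [le_div_iff₀ (by linarith)]; nlinarith
      · rw [div_le_iff₀ (by linarith)]; nlinarith
    unfold xi
    split_ifs with h
    · obtain ⟨a1, a2⟩ := key _ k1 k2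
      rw [abs_of_nonneg (by linarith)]
      exact ⟨a1, a2⟩
    · obtain ⟨a1, a2⟩ := key _ k3 k4
      rw [abs_neg, abs_of_nonneg (by linarith)]
      exact ⟨a1, a2⟩

theorem s1a : StmSec := by
  intro u G l z hu hu' hG hG' hl hz
  obtain ⟨hr1, hr2⟩ := rm_mem u l z hl
  have hcl := cl_eq hz
  obtain ⟨k1, k2, k3, k4⟩ := cG hG hG' hz.1 hz.2
  obtain ⟨a, b⟩ := z
  simp only at hcl hz k1 k2 k3 k4
  set r := rm u l (a, b) with hr
  obtain ⟨k0, hk0⟩ : ∃ k0 : ℤ, u * a + b = r + l * k0 := by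
    refine ⟨⌊(u * a + b) / l⌋, ?_⟩
    rw [hr]; unfold rm; simp only [hcl]; ring
  have hlam : lam u G l (a, b) = min (G * r / (1 - a * G)) (G * (l - r) / (1 + a * G)) := by
    unfold lam; simp only [hcl, ← hr]
  obtain ⟨ha1, ha2⟩ := hz
  ext x
  simp only [mem_ofPred_eq, FS, q, mem_Icc]
  have hval : ∀ k : ℤ, a * x + b - k * l = r + a * (x - u) - ((k : ℝ) - k0) * l := by
    intro k; linarith
  constructor
  · rintro ⟨h1, h2⟩
    refine ⟨h1, ?_⟩
    rw [hlam, ← sub_le_iff_le_add']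
    set s := x - u with hs
    have hs0 : 0 ≤ s := by rw [hs]; linarith
    refine le_min ?_ ?_
    · rw [le_div_iff₀ (by linarith)]
      have h3 := h2 k0
      rw [hval k0, sub_self, zero_mul, sub_zero] at h3
      rcases abs_cases (r + a * s) with ⟨h4, h5⟩ | ⟨h4, h5⟩
      · rw [h4] at h3; nlinarith
      · rw [h4] at h3
        have h6 : -(r + a * s) ≤ s := by nlinarith
        have h7 : s ≤ G * s := h3.trans (mul_le_mul_of_nonneg_left h6 hG.le)
        have h8 : s = 0 := by nlinarith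
        rw [h8]
        simp only [zero_mul]
        positivity
    · rw [le_div_iff₀ (by linarith)]
      have h3 := h2 (k0 + 1)
      rw [hval (k0 + 1)] at h3
      have e1 : r + a * s - (((k0 + 1 : ℤ) : ℝ) - k0) * l = -(l - r - a * s) := by
        push_cast; ring
      rw [e1, abs_neg] at h3
      rcases abs_cases (l - r - a * s) with ⟨h4, h5⟩ | ⟨h4, h5⟩
      · rw [h4] at h3; nlinarith
      · rw [h4] at h3
        have h6 : -(l - r - a * s) ≤ s := by nlinarith
        have h7 : s ≤ G * s := h3.trans (mul_le_mul_of_nonneg_left h6 hG.le)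
        have h8 : s = 0 := by nlinarith
        rw [h8]
        simp only [zero_mul]
        exact mul_nonneg hG.le (by linarith)
  · rintro ⟨h1, h2⟩
    refine ⟨h1, fun k => ?_⟩
    rw [hval k]
    rw [hlam, ← sub_le_iff_le_add'] at h2
    set s := x - u with hs
    have hs0 : 0 ≤ s := by rw [hs]; linarith
    obtain ⟨h3, h4⟩ := le_min_iff.mp h2
    rw [le_div_iff₀ (by linarith)] at h3 h4
    have h5 : s ≤ G * (r + a * s) := by nlinarith
    have h6 : s ≤ G * (l - r - a * s) := by nlinarith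
    have h7 : 0 ≤ r + a * s := by
      by_contra hcon; push Not at hcon; nlinarith
    have h8 : 0 ≤ l - r - a * s := by
      by_contra hcon; push Not at hcon; nlinarith
    rcases le_or_gt k k0 with hk | hk
    · have hk' : (k : ℝ) ≤ k0 := by exact_mod_cast hk
      have h9 : r + a * s ≤ |r + a * s - ((k : ℝ) - k0) * l| :=
        le_trans (by nlinarith) (le_abs_self _)
      exact h5.trans (mul_le_mul_of_nonneg_left h9 hG.le)
    · have hk' : (k0 : ℝ) + 1 ≤ k := by exact_mod_cast hk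
      have h9 : l - r - a * s ≤ |r + a * s - ((k : ℝ) - k0) * l| := by
        refine le_trans ?_ (neg_le_abs _)
        nlinarith
      exact h6.trans (mul_le_mul_of_nonneg_left h9 hG.le)

end Pool.Agent.T6.H18.CR.S1
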